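import Pool.Agent.Lib.MP_6bc78b_nt.GP.H62.Defs7

/-! Project GP9 (MP_6bc78b_nt): simple zeros in windows of length `C log log log T`, under RH.
The Gaussian window of the older files is replaced by `exp (1 - cosh ((γ - t) / H))`, `H` bounded.
This file: definitions and statements of the rows on the side of the zeros. -/

set_option autoImplicit false

open Complex Filter Topology MeasureTheory ArithmeticFunction Set
open scoped ENNReal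

namespace Pool.Agent.Lib.MP_6bc78b_nt.GP.G9

open Pool.Agent.Lib.MP_6bc78b_nt.MS Pool.Agent.Lib.MP_6bc78b_nt.MS.P1
open Pool.Agent.Lib.MP_6bc78b_nt.GP Pool.Agent.Lib.MP_6bc78b_nt.GP.G7

/-- The transform of `exp (1 - cosh x)`. -/
noncomputable def kk (v : ℝ) : ℝ :=
  1 / (2 * Real.pi) * ∫ x : ℝ, Real.exp (1 - Real.cosh x) * Real.cos (v * x)

/-- The window `exp (1 - cos ((s - 1/2 - it)/H))`: on `s = 1/2 + iγ` it is
`exp (1 - cosh ((γ - t)/H))`. Compare `GH`. -/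
noncomputable def GK (H t : ℝ) (s : ℂ) : ℂ :=
  Complex.exp (1 - Complex.cos ((s - 1 / 2 - t * I) / (H : ℂ)))

/-- The density of the `u`-integral. Compare `hu`. -/
noncomputable def huK (A B δ H u : ℝ) : ℂ :=
  ((H * kk (H * u) * Real.exp (u / 2) : ℝ) : ℂ) * EE A B (zp u δ)

/-- Compare `SE`. -/
noncomputable def SEK (A B δ H t : ℝ) : ℂ := ∫ u : ℝ, huK A B δ H u * Complex.exp (u * t * I)

/-- The sum over the zeros (only the simple zeros contribute). Compare `SS`. -/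
noncomputable def SSK (T δ H t : ℝ) : ℂ :=
  ∑ᶠ γ ∈ {γ : ℝ | T / 2 < γ ∧ γ < 4 * T ∧ riemannZeta (1 / 2 + γ * I) = 0},
    (mz γ : ℂ) * deriv riemannZeta (1 / 2 + γ * I) * om0 δ (1 / 2 + γ * I) * GK H t (1 / 2 + γ * I)

/-- The left line `Re s = -1/2`. Compare `IL`. -/
noncomputable def ILK (A B T δ H t : ℝ) : ℂ :=
  (1 / (2 * Real.pi) : ℂ) * ∫ y in (T / 2)..(4 * T),
    DF A B (-(1 / 2) + y * I) * om0 δ (-(1 / 2) + y * I) * GK H t (-(1 / 2) + y * I)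

/-- KER: the transform of the window (contour shift, Fourier inversion). -/
def KERStatement : Prop :=
  Continuous kk ∧ 0 < kk 0 ∧ (∀ v : ℝ, kk (-v) = kk v) ∧
  (∃ C : ℝ, 0 < C ∧ ∀ v : ℝ, |kk v| ≤ C * Real.exp (-|v|)) ∧
  (∀ H v σ : ℝ, 2 ≤ H → |σ| ≤ 1 →
    Integrable (fun x : ℝ => Complex.exp (v * x * I) *
      Complex.exp (1 - Complex.cos ((σ + x * I) / (H : ℂ)))) ∧
    ∫ x : ℝ, Complex.exp (v * x * I) * Complex.exp (1 - Complex.cos ((σ + x * I) / (H : ℂ))) =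
      ((2 * Real.pi * H * kk (H * v) * Real.exp (-(σ * v)) : ℝ) : ℂ)) ∧
  (∀ (H t : ℝ) (s : ℂ), 2 ≤ H → |s.re - 1 / 2| ≤ 1 →
    ∫ u : ℝ, ((H * kk (H * u) : ℝ) : ℂ) * Complex.exp (-(u * (s - 1 / 2 - t * I))) = GK H t s)

/-- RGTK (KER, GAMI, DX2): the right line is `S_E`. Compare `RGTStatement`. -/
def RGTKStatement : Prop := ∀ A B δ H t : ℝ, 0 < δ → δ ≤ 1 / 2 → 4 ≤ H →
  Integrable (fun y : ℝ => LSeries (fun n => ((bn A B n : ℝ) : ℂ)) ((3 / 2 : ℝ) + y * I) *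
    om0 δ ((3 / 2 : ℝ) + y * I) * GK H t ((3 / 2 : ℝ) + y * I)) ∧
  SEK A B δ H t =
    VI (3 / 2) (fun s => LSeries (fun n => ((bn A B n : ℝ) : ℂ)) s * om0 δ s * GK H t s)

/-- CONK (RGTK, DX2, GAMC): the contour identity. Compare `CONStatement`. -/
def CONKStatement : Prop := RiemannHypothesis → ∀ A B : ℝ, ∀ᶠ T : ℝ in atTop,
  ∀ t δ H : ℝ, T ≤ t → t ≤ 2 * T → 1 / T ≤ δ → δ ≤ 2 / T → 4 ≤ H → H ≤ Real.log T →
    ‖SEK A B δ H t - ILK A B T δ H t - SSK T δ H t‖ ≤ 1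

/-- GSLK (KER): average of a slowly varying function against an oscillation.
Compare `GSLStatement`. -/
def GSLKStatement : Prop := ∃ C : ℝ, 0 < C ∧ ∀ (W : ℝ → ℂ) (a b t H M M' v : ℝ), a < t → t < b →
  4 ≤ H → 0 ≤ M → 0 ≤ M' → ContinuousOn W (Icc a b) →
  (∀ y ∈ Icc a b, ‖W y‖ ≤ M) → (∀ y ∈ Icc a b, ‖W y - W t‖ ≤ M' * |y - t|) →
    ‖(∫ y in a..b, W y * Complex.exp (y * v * I) * GK H t (-(1 / 2) + y * I)) -
      W t * Complex.exp (t * v * I) * ((2 * Real.pi * H * kk (H * v) * Real.exp v : ℝ) : ℂ)‖ ≤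
      C * (M' * H ^ 2 + M * H * (Real.exp (-((t - a) / H)) + Real.exp (-((b - t) / H))))

/-- LFTRK (FEQ, GSLK, OMD, DX2, KER): lower bound for the left line. Compare `LFTRStatement`. -/
def LFTRKStatement : Prop := ∀ A B : ℝ, ∃ c C1 T0 : ℝ, 0 < c ∧ 4 ≤ C1 ∧ 10 < T0 ∧
  ∀ T t δ H : ℝ, T0 ≤ T → T ≤ t → t ≤ 2 * T → 1 / T ≤ δ → δ ≤ 2 / T → C1 ≤ H →
    H ≤ Real.log T → c * H * Real.log T ^ 2 ≤ (ILK A B T δ H t).re

/-- BOXK (KER, PLC, ETR): Plancherel for the averages of `S_E` over intervals.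
Compare `BOXStatement`. -/
def BOXKStatement : Prop := ∃ C : ℝ, 0 < C ∧ ∀ A B δ H lam : ℝ, 0 < δ → δ ≤ 1 / 2 → 4 ≤ H →
  0 < lam →
  ∫⁻ t : ℝ, ENNReal.ofReal (‖∫ x in (t - lam)..(t + lam), SEK A B δ H x‖ ^ 2) ≤
    ENNReal.ofReal (C * lam ^ 2 * H ^ 2) *
      ∫⁻ u : ℝ, ENNReal.ofReal (‖EE A B (zp u δ)‖ ^ 2 * Real.exp (-(2 * H * |u|) + u) /
        (1 + lam ^ 2 * u ^ 2))

/-- TAI9: the part `|u| > 1/2` for the weight `e^(-2H|u| + u)`. Compare `TAI7Statement`. -/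
def TAI9Statement : Prop := ∀ A B : ℝ, ∃ C T0 : ℝ, 0 < C ∧ 10 < T0 ∧ ∀ T H : ℝ, T0 ≤ T → 8 ≤ H →
  ∫⁻ δ in Icc (1 / T) (2 / T), ∫⁻ u in {u : ℝ | 1 / 2 < |u|},
    ENNReal.ofReal (‖EE A B (zp u δ)‖ ^ 2 * Real.exp (-(2 * H * |u|) + u)) ≤
    ENNReal.ofReal (C * Real.log T ^ 4)

/-- ARE9 (the arithmetic side, three scales of primes): compare `ARE7Statement`. -/
def ARE9Statement : Prop := RiemannHypothesis → ∀ (A B : ℝ) (D : ℂ → ℂ), IsD A B D →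
  ∀ a b R κ₀ ε : ℝ, 0 < a → a < b → 0 < R → 0 < κ₀ → 0 < ε →
  ∃ T0 : ℝ, 10 < T0 ∧ ∀ T lam : ℝ, T0 ≤ T → Real.log (Real.log (Real.log T)) ≤ lam →
    lam ≤ Real.log T →
    ∫⁻ z in strip a b R T, ENNReal.ofReal (‖EE A B z‖ ^ 2 / (1 + κ₀ * lam ^ 2 * z.im ^ 2)) ≤
      ENNReal.ofReal (ε * Real.log T ^ 4)

/-- AVG9 (ARE9, TAI9, CHV): a good `δ`. Compare `AVG7Statement`. -/
def AVG9Statement : Prop := RiemannHypothesis → ∀ (A B : ℝ) (D : ℂ → ℂ), IsD A B D →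
  ∀ ε : ℝ, 0 < ε → ∃ T0 : ℝ, 10 < T0 ∧ ∀ T H lam : ℝ, T0 ≤ T →
    Real.log (Real.log (Real.log T)) ≤ lam → lam ≤ Real.log T → 8 ≤ H →
    ∃ δ ∈ Icc (1 / T) (2 / T),
      ∫⁻ u : ℝ, ENNReal.ofReal (‖EE A B (zp u δ)‖ ^ 2 * Real.exp (-(2 * H * |u|) + u) /
        (1 + lam ^ 2 * u ^ 2)) ≤ ENNReal.ofReal (ε * T * Real.log T ^ 4)

/-- CHB9 (DX1, AVG9, BOXK, CONK, LFTRK, GAMC, ETR, KER, CEL, MOM6): few simple zeros within
`2 lam` happens rarely. `C0` does not depend on `ε`. Compare `CHB7Statement`. -/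
def CHB9Statement : Prop := RiemannHypothesis → ∃ C0 : ℝ, 1 ≤ C0 ∧ ∀ ε : ℝ, 0 < ε →
  ∃ c : ℝ, 0 < c ∧ ∃ T0 : ℝ, 10 < T0 ∧ ∀ T lam : ℝ, T0 ≤ T →
    C0 * Real.log (Real.log (Real.log T)) ≤ lam → lam ≤ Real.log T →
    volume {t : ℝ | T ≤ t ∧ t ≤ 2 * T ∧
      (({γ : ℝ | |γ - t| < 2 * lam ∧ mz γ = 1}.ncard : ℕ) : ℝ) ≤ c * lam} ≤
      ENNReal.ofReal (ε * T)

/-- FIN9 (from CHB9, CountStatement7 or CountStatement6): the theorem. -/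
def CountStatement9 : Prop := RiemannHypothesis → ∃ C0 : ℝ, 1 ≤ C0 ∧ ∀ ε : ℝ, 0 < ε →
  ∃ c : ℝ, 0 < c ∧ ∃ T0 : ℝ, 10 < T0 ∧ ∀ T h : ℝ, T0 ≤ T →
    C0 * Real.log (Real.log (Real.log T)) ≤ h → h ≤ T →
    volume {t : ℝ | 0 ≤ t ∧ t ≤ T ∧
      (({γ : ℝ | t < γ ∧ γ < t + h ∧ zeroMult γ = 1}.ncard : ℕ) : ℝ) ≤ c * h} ≤
      ENNReal.ofReal (ε * T)

/-! ## Elementary facts about the window -/

lemma GK_diff (H t : ℝ) : Differentiable ℂ (GK H t) := by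
  unfold GK
  fun_prop

lemma norm_GK (H t : ℝ) (s : ℂ) : ‖GK H t s‖ =
    Real.exp (1 - Real.cos ((s.re - 1 / 2) / H) * Real.cosh ((s.im - t) / H)) := by
  unfold GK
  have h1 : (s - 1 / 2 - t * I) / (H : ℂ) =
      (((s.re - 1 / 2) / H : ℝ) : ℂ) + (((s.im - t) / H : ℝ) : ℂ) * I := by
    conv_lhs => rw [← Complex.re_add_im s]
    push_cast
    ring
  rw [h1, Complex.norm_exp, Complex.cos_add_mul_I, ← Complex.ofReal_cos, ← Complex.ofReal_sin,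
    ← Complex.ofReal_cosh, ← Complex.ofReal_sinh]
  congr 1
  rw [Complex.sub_re, Complex.one_re, Complex.sub_re, ← Complex.ofReal_mul, ← Complex.ofReal_mul,
    Complex.ofReal_re, Complex.re_ofReal_mul, Complex.I_re, mul_zero, sub_zero]

/-- On the critical line. -/
lemma GK_line (H t γ : ℝ) : GK H t (1 / 2 + γ * I) =
    ((Real.exp (1 - Real.cosh ((γ - t) / H)) : ℝ) : ℂ) := by
  unfold GK
  have h1 : ((1 / 2 : ℂ) + γ * I - 1 / 2 - t * I) / (H : ℂ) = (((γ - t) / H : ℝ) : ℂ) * I := by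
    push_cast
    ring
  rw [h1, Complex.cos_mul_I]
  push_cast
  rfl

lemma norm_GK_line (H t γ : ℝ) : ‖GK H t (1 / 2 + γ * I)‖ =
    Real.exp (1 - Real.cosh ((γ - t) / H)) := by
  rw [GK_line, Complex.norm_real, Real.norm_eq_abs, abs_of_pos (Real.exp_pos _)]

/-- In the strip `-1/2 ≤ Re s ≤ 3/2`. -/
lemma norm_GK_le (H t : ℝ) (s : ℂ) (hH : 2 ≤ H) (h1 : -(1 / 2) ≤ s.re) (h2 : s.re ≤ 3 / 2) :
    ‖GK H t s‖ ≤ Real.exp (1 - Real.cosh ((s.im - t) / H) / 2) := by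
  rw [norm_GK]
  apply Real.exp_le_exp.mpr
  have hH0 : 0 < H := by linarith
  have ha : |(s.re - 1 / 2) / H| ≤ 1 / 2 := by
    rw [abs_div, abs_of_pos hH0, div_le_iff₀ hH0]
    have : |s.re - 1 / 2| ≤ 1 := by rw [abs_le]; constructor <;> linarith
    linarith
  have hc : 1 / 2 ≤ Real.cos ((s.re - 1 / 2) / H) := by
    have h3 := Real.one_sub_sq_div_two_le_cos (x := (s.re - 1 / 2) / H)
    have h4 : ((s.re - 1 / 2) / H) ^ 2 ≤ 1 / 4 := by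
      have := sq_abs ((s.re - 1 / 2) / H)
      nlinarith [abs_nonneg ((s.re - 1 / 2) / H)]
    linarith
  have hp : 0 < Real.cosh ((s.im - t) / H) := Real.cosh_pos _
  nlinarith

lemma GK_cont (H t : ℝ) : Continuous (GK H t) := (GK_diff H t).continuous

end Pool.Agent.Lib.MP_6bc78b_nt.GP.G9
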