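import Pool.Agent.Lib.MP_6bc78b_nt.GP.H62.Defs7

/-! Project GP7, module LOWX: small `t` and good `t`. -/

set_option autoImplicit false

open Complex Filter Topology MeasureTheory ArithmeticFunction Set
open scoped ENNReal

namespace Pool.Agent.Lib.MP_6bc78b_nt.GP.G7

/-! ### Elementary sums -/

lemma inv_le_log {m : ℕ} (hm : 2 ≤ m) : 1 / (m : ℝ) ≤ Real.log m - Real.log ((m - 1 : ℕ) : ℝ) := by
  have h1 : (0 : ℝ) < m := by positivity
  have hm1 : (1 : ℕ) ≤ m - 1 := by omega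
  have h2 : (0 : ℝ) < ((m - 1 : ℕ) : ℝ) := by exact_mod_cast hm1
  have h3 : ((m - 1 : ℕ) : ℝ) = m - 1 := by
    rw [Nat.cast_sub (by omega)]; simp
  have h4 : Real.log (((m - 1 : ℕ) : ℝ) / m) ≤ ((m - 1 : ℕ) : ℝ) / m - 1 :=
    Real.log_le_sub_one_of_pos (by positivity)
  rw [Real.log_div h2.ne' h1.ne'] at h4
  have h5 : ((m - 1 : ℕ) : ℝ) / m - 1 = -(1 / m) := by
    rw [h3]; field_simp; ring
  linarith

lemma sum_inv_le {a b : ℕ} (ha : 1 ≤ a) (hab : a ≤ b) :
    ∑ m ∈ Finset.Ioc a b, 1 / (m : ℝ) ≤ Real.log b - Real.log a := by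
  induction b, hab using Nat.le_induction with
  | base => simp
  | succ n hn ih =>
    rw [← Finset.insert_Ioc_right_eq_Ioc_add_one hn, Finset.sum_insert (by simp)]
    have h := inv_le_log (m := n + 1) (by omega)
    have h2 : ((n + 1 - 1 : ℕ) : ℝ) = n := by simp
    rw [h2] at h
    linarith

lemma sum_inv_sq_le {a b : ℕ} (ha : 1 ≤ a) (hab : a ≤ b) :
    ∑ m ∈ Finset.Ioc a b, 1 / (m : ℝ) ^ 2 ≤ 1 / (a : ℝ) - 1 / (b : ℝ) := by
  induction b, hab using Nat.le_induction with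
  | base => simp
  | succ n hn ih =>
    rw [← Finset.insert_Ioc_right_eq_Ioc_add_one hn, Finset.sum_insert (by simp)]
    have hn0 : (0 : ℝ) < n := by exact_mod_cast (by omega : 0 < n)
    have h : 1 / ((n + 1 : ℕ) : ℝ) ^ 2 ≤ 1 / (n : ℝ) - 1 / ((n + 1 : ℕ) : ℝ) := by
      push_cast
      rw [div_sub_div _ _ hn0.ne' (by positivity), div_le_div_iff₀ (by positivity) (by positivity)]
      nlinarith
    linarith

/-- `Σ (1/b + m)/m²` over `(M1, M2]`. -/
lemma sum_block_le {a b : ℕ} (ha : 1 ≤ a) (hab : a ≤ b) {u : ℝ} (hu : 0 < u) :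
    ∑ m ∈ Finset.Ioc a b, (1 / u + m) / (m : ℝ) ^ 2 ≤ 1 / (u * a) + (Real.log b - Real.log a) := by
  have h1 : ∀ m ∈ Finset.Ioc a b, (1 / u + m) / (m : ℝ) ^ 2 =
      1 / u * (1 / (m : ℝ) ^ 2) + 1 / (m : ℝ) := by
    intro m hm
    rw [Finset.mem_Ioc] at hm
    have hm0 : (0 : ℝ) < m := by exact_mod_cast (by omega : 0 < m)
    field_simp
  rw [Finset.sum_congr rfl h1, Finset.sum_add_distrib, ← Finset.mul_sum]
  have h2 := sum_inv_sq_le ha hab
  have h3 := sum_inv_le ha hab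
  have ha0 : (0 : ℝ) < a := by exact_mod_cast ha
  have hb0 : (0 : ℝ) < b := by exact_mod_cast (by omega : 0 < b)
  have h4 : 1 / u * ∑ m ∈ Finset.Ioc a b, 1 / (m : ℝ) ^ 2 ≤ 1 / u * (1 / (a : ℝ)) := by
    refine mul_le_mul_of_nonneg_left (h2.trans ?_) (by positivity)
    have : 0 < 1 / (b : ℝ) := by positivity
    linarith
  have h5 : 1 / u * (1 / (a : ℝ)) = 1 / (u * a) := by field_simp
  linarith

/-! ### The function `M(1+it)` -/

/-- The coefficients of `M`. -/
noncomputable def cM (ε η : ℝ) (K : ℕ) (T : ℝ) (n : ℕ) : ℂ :=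
  if n ∈ Finset.Ioc ⌊M1 ε K T⌋₊ ⌊M2 ε T⌋₊ then (ff η T n : ℂ) else 0

lemma Mp_eq (ε η : ℝ) (K : ℕ) (T t : ℝ) :
    Mp ε η K T t = DP (cM ε η K T) ⌊M2 ε T⌋₊ t := by
  unfold Mp DP cM
  have hsub : Finset.Ioc ⌊M1 ε K T⌋₊ ⌊M2 ε T⌋₊ ⊆ Finset.Icc 1 ⌊M2 ε T⌋₊ := by
    intro n hn
    rw [Finset.mem_Ioc] at hn
    rw [Finset.mem_Icc]
    exact ⟨by omega, hn.2⟩
  rw [← Finset.sum_subset hsub (f := fun n => (if n ∈ Finset.Ioc ⌊M1 ε K T⌋₊ ⌊M2 ε T⌋₊ then
    (ff η T n : ℂ) else 0) * (n : ℂ) ^ (-(1 + t * I : ℂ)))]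
  · refine Finset.sum_congr rfl fun n hn => ?_
    rw [if_pos hn]
  · intro n _ hn
    rw [if_neg hn, zero_mul]

lemma norm_Qp_le (P Q t : ℝ) : ‖Qp P Q t‖ ≤ Wq P Q := by
  unfold Qp Wq
  refine (norm_sum_le _ _).trans (Finset.sum_le_sum fun q hq => ?_)
  have hq1 : q.Prime := by
    unfold qs at hq
    rw [Finset.mem_filter] at hq
    exact hq.2.1
  rw [Complex.norm_natCast_cpow_of_pos hq1.pos]
  simp only [neg_re, add_re, one_re, mul_re, ofReal_re, I_re, mul_zero, ofReal_im, I_im, mul_one,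
    sub_self, add_zero]
  rw [Real.rpow_neg_one, one_div]

lemma cont_Qp (P Q : ℝ) : Continuous (fun t : ℝ => Qp P Q t) := by
  unfold Qp
  refine continuous_finsetSum _ fun q hq => ?_
  have hq1 : q.Prime := by
    unfold qs at hq
    rw [Finset.mem_filter] at hq
    exact hq.2.1
  refine Continuous.const_cpow (by fun_prop) (Or.inl ?_)
  exact_mod_cast hq1.pos.ne'

/-- The mean value theorem for `M`. -/
lemma M_mean (hB : BASXStatement) {C : ℝ} (hC : 0 < C)
    (hM : ∀ (N : ℕ) (c : ℕ → ℂ) (b : ℝ), 0 < b → b ≤ 1 →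
      ∫⁻ t : ℝ, ENNReal.ofReal (‖DP c N t‖ ^ 2 * Real.exp (-(b * |t|))) ≤
        ENNReal.ofReal (C * ∑ n ∈ Finset.Icc 1 N, (1 / b + n) * ‖c n‖ ^ 2 / (n : ℝ) ^ 2))
    {ε η : ℝ} {K : ℕ} {T u : ℝ} (hη : 0 < η) (hT : 3 ≤ T) (hu : 0 < u) (hu1 : u ≤ 1)
    (h1 : 2 ≤ M1 ε K T) (h12 : M1 ε K T ≤ M2 ε T) (h2 : M2 ε T ≤ T) :
    ∫⁻ t : ℝ, ENNReal.ofReal (‖Mp ε η K T t‖ ^ 2 * Real.exp (-(u * |t|))) ≤
      ENNReal.ofReal (C * (Real.log T ^ 4 *
        (2 / (u * M1 ε K T) + Real.log (2 * M2 ε T / M1 ε K T)))) := by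
  simp_rw [Mp_eq]
  refine (hM ⌊M2 ε T⌋₊ (cM ε η K T) u hu hu1).trans (ENNReal.ofReal_le_ofReal ?_)
  refine mul_le_mul_of_nonneg_left ?_ hC.le
  set a := ⌊M1 ε K T⌋₊ with ha
  set b := ⌊M2 ε T⌋₊ with hb
  have hM1 : 0 < M1 ε K T := by linarith
  have hM2 : 0 < M2 ε T := by linarith
  have ha2 : 2 ≤ a := Nat.le_floor (by exact_mod_cast h1)
  have hab : a ≤ b := Nat.floor_le_floor h12
  have ha3 : M1 ε K T / 2 ≤ a := by
    have := Nat.lt_floor_add_one (M1 ε K T)
    have h3 : (2 : ℝ) ≤ a := by exact_mod_cast ha2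
    rw [← ha] at this
    linarith
  have hb3 : (b : ℝ) ≤ M2 ε T := Nat.floor_le hM2.le
  have hL : 0 ≤ Real.log T := Real.log_nonneg (by linarith)
  have hsub : Finset.Ioc a b ⊆ Finset.Icc 1 b := by
    intro n hn
    rw [Finset.mem_Ioc] at hn
    rw [Finset.mem_Icc]
    exact ⟨by omega, hn.2⟩
  have e1 : ∑ n ∈ Finset.Icc 1 b, (1 / u + n) * ‖cM ε η K T n‖ ^ 2 / (n : ℝ) ^ 2 =
      ∑ n ∈ Finset.Ioc a b, (1 / u + n) * ‖cM ε η K T n‖ ^ 2 / (n : ℝ) ^ 2 := by
    refine (Finset.sum_subset hsub fun n _ hn => ?_).symm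
    unfold cM
    rw [if_neg (by simpa [ha, hb] using hn)]
    simp
  rw [e1]
  have e2 : ∀ n ∈ Finset.Ioc a b, (1 / u + n) * ‖cM ε η K T n‖ ^ 2 / (n : ℝ) ^ 2 ≤
      Real.log T ^ 4 * ((1 / u + n) / (n : ℝ) ^ 2) := by
    intro n hn
    have hn' := hn
    rw [Finset.mem_Ioc] at hn'
    have hn0 : (0 : ℝ) < n := by exact_mod_cast (by omega : 0 < n)
    have hn1 : (1 : ℝ) ≤ n := by exact_mod_cast (by omega : 1 ≤ n)
    have hnT : (n : ℝ) ≤ T := by
      have : (n : ℝ) ≤ b := by exact_mod_cast hn'.2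
      linarith
    have hc : ‖cM ε η K T n‖ ≤ Real.log T ^ 2 := by
      unfold cM
      rw [if_pos (by simpa [ha, hb] using hn), Complex.norm_real, Real.norm_eq_abs]
      have h3 := hB.2.2.1 η T n hT hη
      have h4 := hB.2.1 n
      rw [abs_of_nonneg h3.1]
      have h5 : Real.log n ≤ Real.log T := Real.log_le_log hn0 hnT
      have h6 : 0 ≤ Real.log n := Real.log_nonneg hn1
      nlinarith [h3.2, h4.2]
    have h7 : ‖cM ε η K T n‖ ^ 2 ≤ Real.log T ^ 4 := by
      have := pow_le_pow_left₀ (norm_nonneg _) hc 2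
      calc _ ≤ (Real.log T ^ 2) ^ 2 := this
        _ = Real.log T ^ 4 := by ring
    have h8 : 0 ≤ (1 / u + n) / (n : ℝ) ^ 2 := by positivity
    calc (1 / u + n) * ‖cM ε η K T n‖ ^ 2 / (n : ℝ) ^ 2 =
        ‖cM ε η K T n‖ ^ 2 * ((1 / u + n) / (n : ℝ) ^ 2) := by ring
      _ ≤ _ := mul_le_mul_of_nonneg_right h7 h8
  refine (Finset.sum_le_sum e2).trans ?_
  rw [← Finset.mul_sum]
  refine mul_le_mul_of_nonneg_left ?_ (by positivity)
  refine (sum_block_le (by omega) hab hu).trans ?_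
  have ha0 : (0 : ℝ) < a := by exact_mod_cast (by omega : 0 < a)
  have hb0 : (0 : ℝ) < b := by exact_mod_cast (by omega : 0 < b)
  have h9 : 1 / (u * a) ≤ 2 / (u * M1 ε K T) := by
    rw [div_le_div_iff₀ (by positivity) (by positivity)]
    nlinarith [mul_le_mul_of_nonneg_left ha3 hu.le]
  have h10 : Real.log b - Real.log a ≤ Real.log (2 * M2 ε T / M1 ε K T) := by
    rw [← Real.log_div hb0.ne' ha0.ne']
    refine Real.log_le_log (by positivity) ?_
    rw [div_le_div_iff₀ ha0 hM1]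
    have h11 : (b : ℝ) * M1 ε K T ≤ M2 ε T * M1 ε K T :=
      mul_le_mul_of_nonneg_right hb3 hM1.le
    have h12' : M2 ε T * M1 ε K T ≤ 2 * M2 ε T * a := by nlinarith
    linarith
  linarith

/-! ### The statement -/

lemma lintegral_set_le {f g : ℝ → ℝ≥0∞} {s : Set ℝ} (hs : MeasurableSet s)
    (h : ∀ t ∈ s, f t ≤ g t) : ∫⁻ t in s, f t ≤ ∫⁻ t, g t :=
  (setLIntegral_mono' hs h).trans (setLIntegral_le_lintegral s g)

lemma tendsto_PP : Tendsto PP atTop atTop := by
  unfold PP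
  exact (tendsto_pow_atTop (by norm_num)).comp
    (Real.tendsto_log_atTop.comp Real.tendsto_log_atTop)

lemma ev_log_pow (n : ℕ) (c : ℝ) (hc : 0 < c) : ∀ᶠ T : ℝ in atTop, c * Real.log T ^ n ≤ T := by
  have h := (Real.isLittleO_pow_log_id_atTop (n := n)).bound (show (0 : ℝ) < 1 / c by positivity)
  filter_upwards [h, eventually_ge_atTop (1 : ℝ)] with T hT h1
  have h2 : 0 ≤ Real.log T := Real.log_nonneg h1
  rw [Real.norm_of_nonneg (by positivity), id, Real.norm_of_nonneg (by linarith)] at hT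
  calc c * Real.log T ^ n ≤ c * (1 / c * T) := mul_le_mul_of_nonneg_left hT hc.le
    _ = T := by field_simp

/-- LOWX. -/
theorem lowx (hMV : MVTXStatement) (hB : BASXStatement) : LOWXStatement := by
  intro a b ha hab
  obtain ⟨C, hC, hM⟩ := hMV
  have hb : 0 < b := ha.trans hab
  refine ⟨C * (2 / a + 1) + 1, by positivity, ?_⟩
  intro ε η δ K hε hε1 hη hη1 hδ hδ1 hK
  have hK1 : (1 : ℝ) ≤ K := by exact_mod_cast (by omega : 1 ≤ K)
  have hK0 : (0 : ℝ) < K := by linarith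
  -- the conditions on T
  have e1 : ∀ᶠ T : ℝ in atTop, 1 / ε + 2 / ε ^ 2 + 2 ≤ PP T :=
    tendsto_PP.eventually_ge_atTop _
  have e2 := ev_log_pow 2 2 (by norm_num)
  have e3 := ev_log_pow 6 1 (by norm_num)
  have e4 := ev_log_pow 2 a ha
  have e5 : ∀ᶠ T : ℝ in atTop, 4 * b * Real.exp 1 * C * (2 + K) / δ + 3 ≤ Real.log T :=
    Real.tendsto_log_atTop.eventually_ge_atTop _
  obtain ⟨T0, h0⟩ := eventually_atTop.1 (e1.and (e2.and (e3.and (e4.and e5))))
  refine ⟨max T0 11, lt_max_of_lt_right (by norm_num), ?_⟩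
  intro T h hT hQh hh hW
  obtain ⟨c1, c2, c3, c4, c5⟩ := h0 T ((le_max_left _ _).trans hT)
  have hT11 : 11 ≤ T := (le_max_right _ _).trans hT
  have hT0 : 0 < T := by linarith
  rw [one_mul] at c3
  set L := Real.log T with hL
  have hL3 : 3 ≤ L := by
    have : 0 ≤ 4 * b * Real.exp 1 * C * (2 + K) / δ := by positivity
    linarith
  have hL0 : 0 < L := by linarith
  set W := Wq (PP T) (QQ K T) with hWdef
  have hW0 : 0 < W := by linarith
  have hP2 : 2 ≤ PP T := by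
    have : 0 ≤ 1 / ε + 2 / ε ^ 2 := by positivity
    linarith
  have hP0 : 0 < PP T := by linarith
  have hPε : 1 / ε ≤ PP T := by
    have : 0 ≤ 2 / ε ^ 2 := by positivity
    linarith
  have hPε2 : 2 / ε ^ 2 ≤ PP T := by
    have : 0 ≤ 1 / ε := by positivity
    linarith
  have hQ0 : 0 < QQ K T := by unfold QQ; positivity
  have hlogP0 : 0 ≤ Real.log (PP T) := Real.log_nonneg (by linarith)
  have hh0 : 0 < h := lt_of_lt_of_le (by positivity) hQh
  -- sizes of M1, M2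
  have hM1 : 2 ≤ M1 ε K T := by
    unfold M1
    rw [le_div_iff₀ hQ0]
    have h1 : QQ K T ≤ ε * L ^ 2 := by
      have := hQh.trans hh
      rwa [div_le_iff₀ hε, mul_comm] at this
    nlinarith
  have hM10 : 0 < M1 ε K T := by linarith
  have hM2T : M2 ε T ≤ T := by
    unfold M2
    rw [div_le_iff₀ (by positivity)]
    have h1 : 1 ≤ ε * PP T := by
      have := mul_le_mul_of_nonneg_left hPε hε.le
      rwa [mul_one_div_cancel hε.ne'] at this
    nlinarith
  have hM20 : 0 < M2 ε T := by unfold M2; positivity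
  have hPQ : PP T ≤ QQ K T := by
    unfold QQ
    calc PP T = PP T ^ 1 := (pow_one _).symm
      _ ≤ PP T ^ K := pow_le_pow_right₀ (by linarith) (by omega)
  have hM12 : M1 ε K T ≤ M2 ε T := by
    unfold M1 M2
    rw [div_le_div_iff₀ hQ0 (by positivity)]
    have h1 : ε * (ε * PP T) ≤ QQ K T := by
      have h2 : ε * (ε * PP T) ≤ 1 * (1 * PP T) := by
        gcongr
      linarith
    nlinarith
  have hratio : Real.log (2 * M2 ε T / M1 ε K T) ≤ K * Real.log (PP T) := by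
    have h1 : 2 * M2 ε T / M1 ε K T = 2 / ε ^ 2 / PP T * QQ K T := by
      unfold M1 M2
      field_simp
    have h2 : 2 / ε ^ 2 / PP T ≤ 1 := by
      rw [div_le_one hP0]; exact hPε2
    rw [h1, ← Real.log_pow]
    refine Real.log_le_log (by positivity) ?_
    calc 2 / ε ^ 2 / PP T * QQ K T ≤ 1 * QQ K T := mul_le_mul_of_nonneg_right h2 hQ0.le
      _ = PP T ^ K := by rw [one_mul]; rfl
  -- the two sets
  set S1 : Set ℝ := {t : ℝ | |t| ≤ T / L ^ 6} with hS1
  set S2 : Set ℝ := {t : ℝ | ‖Qp (PP T) (QQ K T) t‖ ^ 2 ≤ V2 δ K T} with hS2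
  have hS : {t : ℝ | |t| ≤ T / L ^ 6 ∨ ‖Qp (PP T) (QQ K T) t‖ ^ 2 ≤ V2 δ K T} = S1 ∪ S2 := by
    ext t; simp [hS1, hS2]
  have mS1 : MeasurableSet S1 := (isClosed_le continuous_abs continuous_const).measurableSet
  have mS2 : MeasurableSet S2 :=
    (isClosed_le ((cont_Qp _ _).norm.pow 2) continuous_const).measurableSet
  rw [hS]
  refine (lintegral_union_le _ _ _).trans ?_
  -- part 1
  have p1 : ∫⁻ t in S1, ENNReal.ofReal (gt a b ε η K T h t) ≤ ENNReal.ofReal (δ * L ^ 4) := by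
    have hu : 0 < L ^ 6 / T := by positivity
    have hu1 : L ^ 6 / T ≤ 1 := by rw [div_le_one hT0]; exact c3
    have hmv := M_mean hB hC hM (ε := ε) (η := η) (K := K) (T := T) hη (by linarith) hu hu1
      hM1 hM12 hM2T
    have hpt : ∀ t ∈ S1, ENNReal.ofReal (gt a b ε η K T h t) ≤
        ENNReal.ofReal (4 * b / L ^ 4 * Real.exp 1) *
          ENNReal.ofReal (‖Mp ε η K T t‖ ^ 2 * Real.exp (-(L ^ 6 / T * |t|))) := by
      intro t ht
      have ht' : |t| ≤ T / L ^ 6 := ht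
      rw [← ENNReal.ofReal_mul (by positivity)]
      refine ENNReal.ofReal_le_ofReal ?_
      unfold gt
      have hQW : ‖Qp (PP T) (QQ K T) t‖ ≤ W := norm_Qp_le _ _ _
      have h1 : ‖Qp (PP T) (QQ K T) t * Mp ε η K T t‖ ^ 2 / W ^ 2 ≤ ‖Mp ε η K T t‖ ^ 2 := by
        rw [norm_mul, mul_pow, div_le_iff₀ (by positivity), mul_comm]
        exact mul_le_mul_of_nonneg_left (pow_le_pow_left₀ (norm_nonneg _) hQW 2) (by positivity)
      have h2 : rho a b T (L ^ 2) h t ≤ 4 * b / L ^ 4 := by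
        unfold rho
        have h3 : (1 + |t|) * (2 * b * L ^ 2 / T) ≤ 4 * b / L ^ 4 := by
          have h4 : 1 + |t| ≤ 2 * (T / L ^ 6) := by
            have : 1 ≤ T / L ^ 6 := by rw [le_div_iff₀ (by positivity)]; linarith
            linarith
          calc (1 + |t|) * (2 * b * L ^ 2 / T) ≤ 2 * (T / L ^ 6) * (2 * b * L ^ 2 / T) :=
                mul_le_mul_of_nonneg_right h4 (by positivity)
            _ = 4 * b / L ^ 4 := by field_simp; ring
        have h5 : Real.exp (-(a * h / T * |t|)) ≤ 1 := by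
          rw [Real.exp_le_one_iff]
          have : 0 ≤ a * h / T * |t| := by positivity
          linarith
        have h6 : 0 ≤ (1 + |t|) * (2 * b * L ^ 2 / T) := by positivity
        calc min 1 ((1 + |t|) * (2 * b * L ^ 2 / T)) * Real.exp (-(a * h / T * |t|)) ≤
            ((1 + |t|) * (2 * b * L ^ 2 / T)) * 1 :=
              mul_le_mul (min_le_right _ _) h5 (Real.exp_pos _).le h6
          _ ≤ _ := by rw [mul_one]; exact h3
      have h7 : 1 ≤ Real.exp 1 * Real.exp (-(L ^ 6 / T * |t|)) := by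
        rw [← Real.exp_add, Real.one_le_exp_iff]
        have : L ^ 6 / T * |t| ≤ L ^ 6 / T * (T / L ^ 6) :=
          mul_le_mul_of_nonneg_left ht' hu.le
        have h8 : L ^ 6 / T * (T / L ^ 6) = 1 := by field_simp
        linarith
      have h9 : 0 ≤ rho a b T (L ^ 2) h t := by
        unfold rho
        exact mul_nonneg (le_min zero_le_one (by positivity)) (Real.exp_pos _).le
      calc ‖Qp (PP T) (QQ K T) t * Mp ε η K T t‖ ^ 2 / W ^ 2 * rho a b T (L ^ 2) h t
          ≤ ‖Mp ε η K T t‖ ^ 2 * (4 * b / L ^ 4) :=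
            mul_le_mul h1 h2 h9 (by positivity)
        _ = ‖Mp ε η K T t‖ ^ 2 * (4 * b / L ^ 4) * 1 := by ring
        _ ≤ ‖Mp ε η K T t‖ ^ 2 * (4 * b / L ^ 4) *
            (Real.exp 1 * Real.exp (-(L ^ 6 / T * |t|))) :=
            mul_le_mul_of_nonneg_left h7 (by positivity)
        _ = _ := by ring
    refine (lintegral_set_le mS1 hpt).trans ?_
    rw [lintegral_const_mul' _ _ ENNReal.ofReal_ne_top]
    refine (mul_le_mul_right hmv _).trans ?_
    rw [← ENNReal.ofReal_mul (by positivity)]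
    refine ENNReal.ofReal_le_ofReal ?_
    have h10 : 2 / (L ^ 6 / T * M1 ε K T) ≤ 2 := by
      rw [div_le_iff₀ (by positivity)]
      have h11 : 1 ≤ L ^ 6 / T * M1 ε K T := by
        unfold M1
        have h12 : QQ K T ≤ ε * L ^ 2 := by
          have := hQh.trans hh
          rwa [div_le_iff₀ hε, mul_comm] at this
        have h13 : L ^ 6 / T * (ε * T / QQ K T) = ε * L ^ 6 / QQ K T := by
          field_simp
        rw [h13, le_div_iff₀ hQ0, one_mul]
        have h14 : L ^ 2 ≤ L ^ 6 := pow_le_pow_right₀ (by linarith) (by norm_num)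
        exact h12.trans (mul_le_mul_of_nonneg_left h14 hε.le)
      linarith
    have h15 : K * Real.log (PP T) ≤ K * L ^ 2 := by
      refine mul_le_mul_of_nonneg_left ?_ hK0.le
      have h16 : Real.log (PP T) ≤ PP T := (Real.log_le_sub_one_of_pos hP0).trans (by linarith)
      have h17 : PP T ≤ L ^ 2 := by
        unfold PP
        have h18 : 0 ≤ Real.log L := Real.log_nonneg (by linarith)
        have h19 : Real.log L ≤ L := (Real.log_le_sub_one_of_pos hL0).trans (by linarith)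
        exact pow_le_pow_left₀ h18 h19 2
      linarith
    have h20 : 2 / (L ^ 6 / T * M1 ε K T) + Real.log (2 * M2 ε T / M1 ε K T) ≤
        (2 + K) * L ^ 2 := by
      have : (2 : ℝ) ≤ 2 * L ^ 2 := by nlinarith
      nlinarith
    have h21 : 4 * b * Real.exp 1 * C * (2 + K) ≤ δ * L ^ 2 := by
      have h22 : 4 * b * Real.exp 1 * C * (2 + K) / δ ≤ L := by linarith
      rw [div_le_iff₀ hδ] at h22
      have h23 : L * δ ≤ δ * L ^ 2 := by
        have h24 : L ≤ L ^ 2 := by nlinarith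
        have h25 := mul_le_mul_of_nonneg_left h24 hδ.le
        linarith
      linarith
    calc 4 * b / L ^ 4 * Real.exp 1 * (C * (L ^ 4 *
          (2 / (L ^ 6 / T * M1 ε K T) + Real.log (2 * M2 ε T / M1 ε K T))))
        ≤ 4 * b / L ^ 4 * Real.exp 1 * (C * (L ^ 4 * ((2 + K) * L ^ 2))) := by
          gcongr
      _ = 4 * b * Real.exp 1 * C * (2 + K) * L ^ 2 := by field_simp
      _ ≤ δ * L ^ 2 * L ^ 2 := mul_le_mul_of_nonneg_right h21 (by positivity)
      _ = δ * L ^ 4 := by ring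
  -- part 2
  have p2 : ∫⁻ t in S2, ENNReal.ofReal (gt a b ε η K T h t) ≤
      ENNReal.ofReal (C * (2 / a + 1) * δ * L ^ 4) := by
    have hu : 0 < a * h / T := by positivity
    have hu1 : a * h / T ≤ 1 := by
      rw [div_le_one hT0]
      exact (mul_le_mul_of_nonneg_left hh ha.le).trans c4
    have hmv := M_mean hB hC hM (ε := ε) (η := η) (K := K) (T := T) hη (by linarith) hu hu1
      hM1 hM12 hM2T
    have hV0 : 0 < V2 δ K T := by
      unfold V2
      positivity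
    have hpt : ∀ t ∈ S2, ENNReal.ofReal (gt a b ε η K T h t) ≤
        ENNReal.ofReal (V2 δ K T) *
          ENNReal.ofReal (‖Mp ε η K T t‖ ^ 2 * Real.exp (-(a * h / T * |t|))) := by
      intro t ht
      have ht' : ‖Qp (PP T) (QQ K T) t‖ ^ 2 ≤ V2 δ K T := ht
      rw [← ENNReal.ofReal_mul hV0.le]
      refine ENNReal.ofReal_le_ofReal ?_
      unfold gt
      have h1 : ‖Qp (PP T) (QQ K T) t * Mp ε η K T t‖ ^ 2 / W ^ 2 ≤
          V2 δ K T * ‖Mp ε η K T t‖ ^ 2 := by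
        rw [norm_mul, mul_pow, div_le_iff₀ (by positivity)]
        have h2 : 1 ≤ W ^ 2 := one_le_pow₀ hW
        have h3 : ‖Qp (PP T) (QQ K T) t‖ ^ 2 * ‖Mp ε η K T t‖ ^ 2 ≤
            V2 δ K T * ‖Mp ε η K T t‖ ^ 2 := mul_le_mul_of_nonneg_right ht' (by positivity)
        have h4 : 0 ≤ V2 δ K T * ‖Mp ε η K T t‖ ^ 2 := by positivity
        nlinarith
      have h2 : rho a b T (L ^ 2) h t ≤ Real.exp (-(a * h / T * |t|)) := by
        unfold rho
        calc _ ≤ 1 * Real.exp (-(a * h / T * |t|)) :=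
              mul_le_mul_of_nonneg_right (min_le_left _ _) (Real.exp_pos _).le
          _ = _ := one_mul _
      have h9 : 0 ≤ rho a b T (L ^ 2) h t := by
        unfold rho
        exact mul_nonneg (le_min zero_le_one (by positivity)) (Real.exp_pos _).le
      calc ‖Qp (PP T) (QQ K T) t * Mp ε η K T t‖ ^ 2 / W ^ 2 * rho a b T (L ^ 2) h t
          ≤ V2 δ K T * ‖Mp ε η K T t‖ ^ 2 * Real.exp (-(a * h / T * |t|)) :=
            mul_le_mul h1 h2 h9 (by positivity)
        _ = _ := by ring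
    refine (lintegral_set_le mS2 hpt).trans ?_
    rw [lintegral_const_mul' _ _ ENNReal.ofReal_ne_top]
    refine (mul_le_mul_right hmv _).trans ?_
    rw [← ENNReal.ofReal_mul hV0.le]
    refine ENNReal.ofReal_le_ofReal ?_
    have h10 : 2 / (a * h / T * M1 ε K T) ≤ 2 / a := by
      refine div_le_div_of_nonneg_left (by norm_num) ha ?_
      unfold M1
      have h11 : a * h / T * (ε * T / QQ K T) = a * (ε * h / QQ K T) := by field_simp
      rw [h11]
      have h12 : 1 ≤ ε * h / QQ K T := by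
        rw [le_div_iff₀ hQ0, one_mul]
        rwa [div_le_iff₀ hε, mul_comm] at hQh
      nlinarith
    have h13 : 2 / (a * h / T * M1 ε K T) + Real.log (2 * M2 ε T / M1 ε K T) ≤
        (2 / a + 1) * (1 + K * Real.log (PP T)) := by
      have h14 : 0 ≤ K * Real.log (PP T) := by positivity
      have h15 : 0 ≤ 2 / a := by positivity
      nlinarith
    have h16 : V2 δ K T * (1 + K * Real.log (PP T)) = δ := by
      unfold V2
      have : 0 < 1 + K * Real.log (PP T) := by positivity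
      field_simp
    calc V2 δ K T * (C * (L ^ 4 *
          (2 / (a * h / T * M1 ε K T) + Real.log (2 * M2 ε T / M1 ε K T))))
        ≤ V2 δ K T * (C * (L ^ 4 * ((2 / a + 1) * (1 + K * Real.log (PP T))))) := by
          gcongr
      _ = C * (2 / a + 1) * (V2 δ K T * (1 + K * Real.log (PP T))) * L ^ 4 := by ring
      _ = _ := by rw [h16]
  refine (add_le_add p1 p2).trans ?_
  rw [← ENNReal.ofReal_add (by positivity) (by positivity)]
  refine ENNReal.ofReal_le_ofReal ?_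
  nlinarith

end Pool.Agent.Lib.MP_6bc78b_nt.GP.G7
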