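import Pool.Agent.Lib.MP_6bc78b_nt.GP.H3.Defs8
import Pool.Agent.Lib.MP_6bc78b_nt.GP.H62.Defs9

/-! Project GP9 (MP_6bc78b_nt), arithmetic side: three scales of primes,
`(log₄ T)³`, `(log₃ T)¹⁶`, `(log₂ T)¹⁶`, so that all windows `h ≥ (log₄ T)^K` are allowed.
Statements of the rows. -/

set_option autoImplicit false

open Complex Filter Topology MeasureTheory ArithmeticFunction Set
open scoped ENNReal

namespace Pool.Agent.Lib.MP_6bc78b_nt.GP.G9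

open Pool.Agent.Lib.MP_6bc78b_nt.MS Pool.Agent.Lib.MP_6bc78b_nt.MS.P1
  Pool.Agent.Lib.MP_6bc78b_nt.GP.G7 Pool.Agent.Lib.MP_6bc78b_nt.GP.G8

/-- The smallest scale, `(log₄ T)³`. -/
noncomputable def PC (T : ℝ) : ℝ := Real.log (Real.log (Real.log (Real.log T))) ^ 3
/-- The middle scale, `(log₃ T)¹⁶` (the large scale is `G8.PB T = (log₂ T)¹⁶`). -/
noncomputable def PM (T : ℝ) : ℝ := Real.log (Real.log (Real.log T)) ^ 16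

/-- The threshold `V²` at the smallest scale. -/
noncomputable def VC (c κ : ℝ) (K : ℕ) (P : ℝ) : ℝ := c / (1 + nb P κ K) ^ 2

/-- The threshold `V²` of the middle scale. -/
noncomputable def VM (κ T : ℝ) (v : ℕ) : ℝ := yb (PM T) κ v ^ (-(3 / 4 : ℝ))

/-- GOODX (MVTX, BASX): all blocks of the scale `P` are small, any `P`. Compare `GOOD8Statement`. -/
def GOODXStatement : Prop := ∀ a ε : ℝ, 0 < a → 0 < ε → ε < 1 → ∃ C : ℝ, 0 < C ∧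
  ∀ (η κ c : ℝ) (K : ℕ), 0 < η → η < 1 → 0 < κ → κ ≤ 1 / 2 → 0 < c → c < 1 → 1 ≤ K →
  ∃ T0 : ℝ, 10 < T0 ∧ ∀ T h P : ℝ, T0 ≤ T → 2 ≤ P → QE P κ K ≤ h → h ≤ Real.log T ^ 2 →
    1 ≤ Wb P κ K →
    ∫⁻ t in {t : ℝ | ∀ v < nb P κ K, ‖Qb P κ v t‖ ^ 2 ≤ VC c κ K P},
      ENNReal.ofReal (‖Fb ε η κ K P T t‖ ^ 2 * Real.exp (-(a * h / T * |t|))) ≤
      ENNReal.ofReal (C * c * Real.log T ^ 4)

/-- MED9L (CMB2X, BASX): some block of the smallest scale is large, all blocks of the middle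
scale are small. Compare `MED8Statement`; `l = ⌈log y / log PC⌉`. -/
def MED9LStatement : Prop := ∀ (a ε η κ c δ : ℝ) (K : ℕ), 0 < a → 0 < ε → ε < 1 → 0 < η →
  η < 1 → 0 < κ → κ ≤ 1 / 2 → 0 < c → c < 1 → 0 < δ → 1 ≤ K →
  ∃ T0 : ℝ, 10 < T0 ∧ ∀ T h : ℝ, T0 ≤ T → 1 ≤ h → h ≤ Real.log T ^ 2 →
    1 ≤ Wb (PM T) κ K →
    ∫⁻ t in {t : ℝ | (∃ v < nb (PC T) κ K, VC c κ K (PC T) < ‖Qb (PC T) κ v t‖ ^ 2) ∧
        ∀ v < nb (PM T) κ K, ‖Qb (PM T) κ v t‖ ^ 2 ≤ VM κ T v},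
      ENNReal.ofReal (‖Fb ε η κ K (PM T) T t‖ ^ 2 * Real.exp (-(a * h / T * |t|))) ≤
      ENNReal.ofReal (δ * Real.log T ^ 4)

/-- MED9H (CMB2X, BASX): some block of the middle scale is large, all blocks of the large scale
are small. `l = ⌈log y / log y₂⌉`. -/
def MED9HStatement : Prop := ∀ (a ε η κ δ : ℝ) (K : ℕ), 0 < a → 0 < ε → ε < 1 → 0 < η →
  η < 1 → 0 < κ → κ ≤ 1 / 2 → 0 < δ → 1 ≤ K →
  ∃ T0 : ℝ, 10 < T0 ∧ ∀ T h : ℝ, T0 ≤ T → 1 ≤ h → h ≤ Real.log T ^ 2 →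
    1 ≤ Wb (PB T) κ K →
    ∫⁻ t in {t : ℝ | (∃ v < nb (PM T) κ K, VM κ T v < ‖Qb (PM T) κ v t‖ ^ 2) ∧
        ∀ v < nb (PB T) κ K, ‖Qb (PB T) κ v t‖ ^ 2 ≤ VB κ T v},
      ENNReal.ofReal (‖Fb ε η κ K (PB T) T t‖ ^ 2 * Real.exp (-(a * h / T * |t|))) ≤
      ENNReal.ofReal (δ * Real.log T ^ 4)

/-- MEL9 (DEC8, SML8, GOODX, HIGH8, MED9L, MED9H, MERX): assembly on the `t`-side. -/
def MEL9Statement : Prop := RiemannHypothesis → ∀ a b ε η δ : ℝ, 0 < a → a < b → 0 < ε →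
  ε < 1 → 0 < η → η < 1 → 0 < δ → ∃ K : ℕ, ∃ T0 : ℝ, 10 < T0 ∧ ∀ T h : ℝ, T0 ≤ T →
    Real.log (Real.log (Real.log (Real.log T))) ^ K ≤ h → h ≤ Real.log T ^ 2 →
    ∫⁻ t : ℝ, ENNReal.ofReal (‖Dp ε η T t‖ ^ 2 * rho a b T (Real.log T ^ 2) h t) ≤
      ENNReal.ofReal (δ * Real.log T ^ 4)

/-- MID9 (POLX, MEL9, RNG8, GX, SMOX, STRX, BASX, ARI0): the middle region. -/
def MID9Statement : Prop := RiemannHypothesis → ∀ A B a b ε : ℝ, 0 < a → a < b → 0 < ε →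
  ∃ K : ℕ, ∃ T0 : ℝ, 10 < T0 ∧ ∀ T h : ℝ, T0 ≤ T →
    Real.log (Real.log (Real.log (Real.log T))) ^ K ≤ h → h ≤ Real.log T ^ 2 →
    ∫⁻ z in mid a b T (Real.log T ^ 2) h, ENNReal.ofReal (‖EE A B z‖ ^ 2) ≤
      ENNReal.ofReal (ε * Real.log T ^ 4)

end Pool.Agent.Lib.MP_6bc78b_nt.GP.G9
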