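import Pool.Agent.Lib.MP_6bc78b_nt.GP.H62.Erb
import Pool.Agent.Lib.MP_6bc78b_nt.GP.H43.Defs10t

/-! Project GP10, row ERT: as row ERB, for polynomials of length `T^η`. -/

set_option autoImplicit false

open Complex Filter Topology MeasureTheory Set
open scoped ENNReal

namespace Pool.Agent.Lib.MP_6bc78b_nt.GP.H62E

open Pool.Agent.Lib.MP_6bc78b_nt.GP Pool.Agent.Lib.MP_6bc78b_nt.GP.G7
open Pool.Agent.Lib.MP_6bc78b_nt.GP.G10

/-- **ERT.** -/
theorem ert (h1 : AVGTStatement) (h2 : SPLBStatement) (h3 : PIECEBStatement) (hP : PLCStatement)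
    (hE : ETRStatement) : ERTStatement := by
  intro hRH A B D hD ε hε
  obtain ⟨C, hC, havg⟩ := h1 hRH A B D hD
  obtain ⟨ψ, ⟨hψc, hψ01, hψ1, hψ0⟩, Cs, hCs, hspl⟩ := h2
  obtain ⟨Cp, hCp, hpc⟩ := h3
  have hpi := Real.pi_pos
  obtain ⟨ε1, hε1⟩ : ∃ ε1 : ℝ, ε1 = (ε / 4) ^ 2 / (2 * Real.pi * 257) := ⟨_, rfl⟩
  have hε10 : 0 < ε1 := by rw [hε1]; positivity
  obtain ⟨ν, η, lam₁, hν, hν1, hη, hη1, hlam₁, havg⟩ := havg ε1 hε10
  refine ⟨ν, η, hν, hν1, hη, hη1, fun w hw => ?_⟩
  obtain ⟨a, ha⟩ : ∃ a : ℝ, a = Real.sqrt (Cp * C) := ⟨_, rfl⟩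
  have ha0 : 0 < a := by rw [ha]; positivity
  have ha2 : a ^ 2 = Cp * C := by rw [ha]; exact Real.sq_sqrt (by positivity)
  have hp0 : 0 < pk w 0 := pk_pos w 0
  obtain ⟨Z, hZ⟩ : ∃ Z : ℝ, Z = 4 * (a * Cs * (pk w 0 + 10)) / ε := ⟨_, rfl⟩
  refine ⟨max lam₁ (max Z 1), hlam₁.trans (le_max_left _ _), fun lam hlam => ?_⟩
  have hl1 : lam₁ ≤ lam := (le_max_left _ _).trans hlam
  have hl2 : Z ≤ lam := ((le_max_left _ _).trans (le_max_right _ _)).trans hlam
  have hl3 : 1 ≤ lam := ((le_max_right _ _).trans (le_max_right _ _)).trans hlam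
  have hlam0 : 0 < lam := by linarith
  -- the pieces
  have hZ6 : a * Cs * (pk w 0 + 10) / lam ^ 6 ≤ ε / 4 := by
    rw [div_le_iff₀ (by positivity)]
    rw [hZ, div_le_iff₀ hε] at hl2
    have h4 : lam ≤ lam ^ 6 := by
      calc lam = lam ^ 1 := (pow_one lam).symm
        _ ≤ lam ^ 6 := pow_le_pow_right₀ hl3 (by norm_num)
    have h5 : ε / 4 * lam ≤ ε / 4 * lam ^ 6 := mul_le_mul_of_nonneg_left h4 (by positivity)
    linarith
  obtain ⟨T₁, hT₁, havg⟩ := havg lam hl1
  obtain ⟨T₂, hT₂, hsm⟩ := small (1200 ^ 4) 1 one_pos 4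
  have hlog : Tendsto Real.log atTop atTop := Real.tendsto_log_atTop
  obtain ⟨T₃, h5⟩ := eventually_atTop.1 ((hlog.comp hlog).eventually_ge_atTop 1)
  obtain ⟨T₄, h6⟩ := eventually_atTop.1
    (hlog.eventually_ge_atTop (2 * Real.pi * C * 16 / ε ^ 2 + 1))
  refine ⟨max T₁ (max T₂ (max T₃ T₄)), lt_max_of_lt_left hT₁,
    fun T K S β S' β' hT hK1 hK2 hS => ?_⟩
  have hTT₁ : T₁ ≤ T := (le_max_left _ _).trans hT
  have hr1 := (le_max_right _ _).trans hT
  have hTT₂ : T₂ ≤ T := (le_max_left _ _).trans hr1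
  have hr2 := (le_max_right _ _).trans hr1
  have hTT₃ : T₃ ≤ T := (le_max_left _ _).trans hr2
  have hTT₄ : T₄ ≤ T := (le_max_right _ _).trans hr2
  clear hr1 hr2 hT
  have hT10 : 10 < T := by linarith
  have hT0 : 0 < T := by linarith
  have hll : 1 ≤ Real.log (Real.log T) := h5 T hTT₃
  have hL : 2 * Real.pi * C * 16 / ε ^ 2 + 1 ≤ Real.log T := h6 T hTT₄
  have hsmT := hsm T hTT₂
  obtain ⟨δ, hδ, hlow, hband, htail⟩ := havg T w K S β S' β' hTT₁ hw hS
  refine ⟨δ, hδ, ?_⟩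
  have hδ0 : 0 < δ := lt_of_lt_of_le (by positivity) hδ.1
  have hδh : δ ≤ 1 / 2 := by
    refine hδ.2.trans ?_
    rw [div_le_div_iff₀ hT0 (by norm_num)]
    linarith
  obtain ⟨l, hld⟩ : ∃ l : ℝ, l = Real.log (Real.log T) := ⟨_, rfl⟩
  rw [← hld] at hll hK1 hK2 htail hsmT
  obtain ⟨L, hLd⟩ : ∃ L : ℝ, L = Real.log T := ⟨_, rfl⟩
  rw [← hLd] at hL hlow hband hsmT ⊢
  have hLd' : Real.log T = L := hLd.symm
  have hL1 : 1 ≤ L := by
    have : 0 < 2 * Real.pi * C * 16 / ε ^ 2 := by positivity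
    linarith
  have hL0 : 0 < L := by linarith
  -- the width of the Gaussian
  obtain ⟨H, hHd⟩ : ∃ H : ℝ, H = HH T lam := ⟨_, rfl⟩
  have hH0 : 0 < H := by
    rw [hHd]
    unfold HH
    rw [← hld]
    positivity
  have hHl : H ≤ lam := by
    rw [hHd]
    unfold HH
    rw [← hld]
    refine div_le_self hlam0.le ?_
    have := Real.one_le_sqrt.2 hll
    linarith
  rw [← hHd] at htail ⊢
  -- the scales
  have hsc : ∀ k ≤ K, Real.exp (pk w (k + 1)) ≤ T := by
    intro k hk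
    rw [← Real.le_log_iff_exp_le hT0]
    have k1 : pk w (k + 1) ≤ pk w (K + 1) := pk_mono hw (by omega)
    have k2 : pk w (K + 1) ≤ ((1200 * l) ^ 2) ^ 2 := by
      rw [pk_succ]
      exact pow_le_pow_left₀ (pk_pos w K).le hK2 2
    have k3 : ((1200 * l) ^ 2) ^ 2 = 1200 ^ 4 * l ^ 4 := by ring
    rw [k3] at k2
    rw [hLd']
    linarith
  -- the weights
  obtain ⟨w0, hw0⟩ : ∃ f : ℝ → ℝ, f = fun u => wd lam H u * ψ (u / jk w 0) := ⟨_, rfl⟩
  obtain ⟨wk, hwk⟩ : ∃ f : ℕ → ℝ → ℝ, f = fun k u => wd lam H u *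
    (ψ (u / jk w (k + 1)) - ψ (u / jk w k)) := ⟨_, rfl⟩
  obtain ⟨wt, hwt⟩ : ∃ f : ℝ → ℝ, f = fun u => wd lam H u * (1 - ψ (u / jk w (K + 1))) :=
    ⟨_, rfl⟩
  have hj : ∀ k : ℕ, Continuous (fun u : ℝ => ψ (u / jk w k)) := fun k =>
    hψc.comp (continuous_id.div_const _)
  have hab : ∀ (f : ℝ → ℝ) (g : ℝ → ℝ), (∀ u, |g u| ≤ 1) → (f = fun u => wd lam H u * g u) →
      ∀ u, |f u| ≤ Real.exp (-(H ^ 2 * u ^ 2 / 2)) := by
    intro f g hg hf u
    rw [hf]
    show |wd lam H u * g u| ≤ _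
    rw [abs_mul]
    exact (mul_le_of_le_one_right (abs_nonneg _) (hg u)).trans (wd_abs lam H u)
  have hS1 : ∀ m ∈ S, 1 ≤ m := hS.mol.one_le
  have i0 : Integrable (ig A B δ w0 S β) := by
    refine ig_int hE A B β hS1 hδ0 hδh hH0 ?_ (hab w0 (fun u => ψ (u / jk w 0)) (fun u => ?_) hw0)
    · rw [hw0]
      exact (wd_cont lam H).mul (hj 0)
    · rw [abs_le]
      have := hψ01 (u / jk w 0)
      constructor <;> linarith [this.1, this.2]
  have ik : ∀ k, Integrable (ig A B δ (wk k) S β) := by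
    intro k
    refine ig_int hE A B β hS1 hδ0 hδh hH0 ?_
      (hab (wk k) (fun u => ψ (u / jk w (k + 1)) - ψ (u / jk w k)) (fun u => ?_) (by rw [hwk]))
    · rw [hwk]
      exact (wd_cont lam H).mul ((hj (k + 1)).sub (hj k))
    · rw [abs_le]
      have k1 := hψ01 (u / jk w (k + 1))
      have k2 := hψ01 (u / jk w k)
      constructor <;> linarith [k1.1, k1.2, k2.1, k2.2]
  have it : Integrable (ig A B δ wt S β) := by
    refine ig_int hE A B β hS1 hδ0 hδh hH0 ?_
      (hab wt (fun u => 1 - ψ (u / jk w (K + 1))) (fun u => ?_) hwt)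
    · rw [hwt]
      exact (wd_cont lam H).mul (continuous_const.sub (hj (K + 1)))
    · rw [abs_le]
      have k1 := hψ01 (u / jk w (K + 1))
      constructor <;> linarith [k1.1, k1.2]
  have hdec := sb_sum (w := wd lam H) (s := Finset.range (K + 1)) i0 it (fun k _ => ik k)
    (fun u => by
      rw [hw0, hwk, hwt]
      show wd lam H u = wd lam H u * ψ (u / jk w 0) +
        ∑ k ∈ Finset.range (K + 1), wd lam H u * (ψ (u / jk w (k + 1)) - ψ (u / jk w k)) +
          wd lam H u * (1 - ψ (u / jk w (K + 1)))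
      rw [← Finset.mul_sum, Finset.sum_range_sub (fun k => ψ (u / jk w k))]
      ring)
  -- the low frequencies
  have X0 : ∫⁻ t in Icc T (2 * T), ENNReal.ofReal ‖SB A B δ w0 S β t‖ ≤
      ENNReal.ofReal (ε / 4 * T * L ^ 2) := by
    refine le_of_sq (by positivity) ((mean hP i0 hT0).trans ?_)
    have k1 : ∫⁻ u : ℝ, ENNReal.ofReal (w0 u ^ 2 * (‖EM A B S β (zp u δ)‖ ^ 2 * Real.exp u)) ≤
        ENNReal.ofReal 257 * ENNReal.ofReal (ε1 * T * L ^ 4) := by
      refine le_trans ?_ (mul_le_mul_right hlow (ENNReal.ofReal 257))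
      rw [← lintegral_const_mul' _ _ ENNReal.ofReal_ne_top, ← lintegral_indicator measurableSet_Icc]
      refine lintegral_mono fun u => ?_
      by_cases hu : u ∈ Icc (-1 : ℝ) 1
      · rw [indicator_of_mem hu, ← ENNReal.ofReal_mul (by norm_num)]
        refine ENNReal.ofReal_le_ofReal ?_
        have k2 : w0 u ^ 2 ≤ 257 / (1 + lam ^ 2 * u ^ 2) := by
          rw [hw0]
          show (wd lam H u * ψ (u / jk w 0)) ^ 2 ≤ _
          rw [mul_pow]
          have k3 := hψ01 (u / jk w 0)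
          exact (mul_le_of_le_one_right (sq_nonneg _) (pow_le_one₀ k3.1 k3.2)).trans
            (wd_sq lam H u)
        calc w0 u ^ 2 * (‖EM A B S β (zp u δ)‖ ^ 2 * Real.exp u) ≤
            257 / (1 + lam ^ 2 * u ^ 2) * (‖EM A B S β (zp u δ)‖ ^ 2 * Real.exp u) :=
              mul_le_mul_of_nonneg_right k2 (by positivity)
          _ = _ := by ring
      · have k2 : w0 u = 0 := by
          rw [hw0]
          show wd lam H u * ψ (u / 1) = 0
          rw [div_one, hψ0 u (by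
            by_contra hcon
            push Not at hcon
            exact hu ⟨by linarith [(abs_lt.1 hcon).1], by linarith [(abs_lt.1 hcon).2]⟩), mul_zero]
        rw [k2, indicator_of_notMem hu]
        simp
    refine (mul_le_mul_right k1 _).trans (le_of_eq ?_)
    rw [← ENNReal.ofReal_mul (by norm_num), ← ENNReal.ofReal_mul (by positivity)]
    congr 1
    rw [hε1]
    field_simp
  -- the pieces
  have Xk : ∀ k ∈ Finset.range (K + 1),
      ∫⁻ t in Icc T (2 * T), ENNReal.ofReal ‖SB A B δ (wk k) S β t‖ ≤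
        ENNReal.ofReal (a * Cs / lam ^ 6 * (T * L ^ 2) * (2 ^ k * pk w k / jk w k ^ 6)) := by
    intro k hk
    have hkK : k ≤ K := Nat.lt_succ_iff.1 (Finset.mem_range.1 hk)
    have hjk := jk_ge hw k
    have hjk0 : 0 < jk w k := by linarith
    have hpk := pk_pos w k
    refine le_of_sq (by positivity) ?_
    have k1 := hpc A B T δ w (Cs / (lam ^ 6 * jk w k ^ 6)) _ ν K k S β S' β' (wk k) hT10 hδ0 hδh
      hw hkK (hsc k hkK) hS (by
        have := hspl lam H (jk w k) (jk w (k + 1)) hl3 hH0 hHl hjk (jk_two hw k)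
        rw [hwk]
        exact this) (fun u hu => by
        rw [hwk]
        show wd lam H u * (ψ (u / jk w (k + 1)) - ψ (u / jk w k)) = 0
        have h7 : jk w (k + 1) = pk w k / 2 := rfl
        have h8 : 1 ≤ |u / jk w (k + 1)| := by
          have h10 : (0 : ℝ) < jk w (k + 1) := by rw [h7]; positivity
          rw [abs_div, abs_of_pos h10, one_le_div h10, h7]
          exact hu.le
        have h9 : 1 ≤ |u / jk w k| := by
          rw [abs_div, abs_of_pos hjk0, one_le_div hjk0]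
          have := jk_two hw k
          rw [h7] at this
          linarith
        rw [hψ0 _ h8, hψ0 _ h9, sub_zero, mul_zero])
    refine k1.trans ((mul_le_mul_right (hband k hkK) _).trans ?_)
    rw [← ENNReal.ofReal_mul (by positivity)]
    refine ENNReal.ofReal_le_ofReal ?_
    have k2 : (a * Cs / lam ^ 6 * (T * L ^ 2) * (2 ^ k * pk w k / jk w k ^ 6)) ^ 2 =
        a ^ 2 * (Cs / (lam ^ 6 * jk w k ^ 6)) ^ 2 * T * (2 ^ k * (2 ^ k * pk w k ^ 2)) * T *
          L ^ 4 := by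
      field_simp
    rw [k2, ha2, pk_succ]
    have k3 : (2 : ℝ) ^ k * pk w k ^ 2 ≤ 2 ^ k * (2 ^ k * pk w k ^ 2) := by
      have : (1 : ℝ) ≤ 2 ^ k := one_le_pow₀ (by norm_num)
      exact mul_le_mul_of_nonneg_left (le_mul_of_one_le_left (by positivity) this) (by positivity)
    calc Cp * (Cs / (lam ^ 6 * jk w k ^ 6)) ^ 2 * T * (C * 2 ^ k * pk w k ^ 2 * T * L ^ 4) =
        Cp * C * (Cs / (lam ^ 6 * jk w k ^ 6)) ^ 2 * T * (2 ^ k * pk w k ^ 2) * T * L ^ 4 := by
          ring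
      _ ≤ _ := by
          refine mul_le_mul_of_nonneg_right (mul_le_mul_of_nonneg_right
            (mul_le_mul_of_nonneg_left k3 (by positivity)) hT0.le) (by positivity)
  -- the tail
  have Xt : ∫⁻ t in Icc T (2 * T), ENNReal.ofReal ‖SB A B δ wt S β t‖ ≤
      ENNReal.ofReal (ε / 4 * T * L ^ 2) := by
    refine le_of_sq (by positivity) ((mean hP it hT0).trans ?_)
    have hms : MeasurableSet {u : ℝ | 300 * l ≤ |u|} :=
      measurableSet_le measurable_const measurable_id.abs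
    have k1 : ∫⁻ u : ℝ, ENNReal.ofReal (wt u ^ 2 * (‖EM A B S β (zp u δ)‖ ^ 2 * Real.exp u)) ≤
        ENNReal.ofReal (C * T) := by
      refine le_trans ?_ htail
      rw [← lintegral_indicator hms]
      refine lintegral_mono fun u => ?_
      by_cases hu : 300 * l ≤ |u|
      · rw [indicator_of_mem (show u ∈ {u : ℝ | 300 * l ≤ |u|} from hu)]
        refine ENNReal.ofReal_le_ofReal ?_
        have k2 : wt u ^ 2 ≤ Real.exp (-(H ^ 2 * u ^ 2)) := by
          rw [hwt]
          show (wd lam H u * (1 - ψ (u / jk w (K + 1)))) ^ 2 ≤ _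
          rw [mul_pow]
          have k3 := hψ01 (u / jk w (K + 1))
          refine (mul_le_of_le_one_right (sq_nonneg _)
            (pow_le_one₀ (by linarith [k3.2]) (by linarith [k3.1]))).trans ?_
          rw [← sq_abs]
          refine (pow_le_pow_left₀ (abs_nonneg _) (wd_abs lam H u) 2).trans (le_of_eq ?_)
          rw [← Real.exp_nat_mul]
          congr 1
          push_cast
          ring
        calc wt u ^ 2 * (‖EM A B S β (zp u δ)‖ ^ 2 * Real.exp u) ≤
            Real.exp (-(H ^ 2 * u ^ 2)) * (‖EM A B S β (zp u δ)‖ ^ 2 * Real.exp u) :=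
              mul_le_mul_of_nonneg_right k2 (by positivity)
          _ = _ := by
              rw [Real.exp_add]
              ring
      · have k2 : wt u = 0 := by
          rw [hwt]
          show wd lam H u * (1 - ψ (u / (pk w K / 2))) = 0
          push Not at hu
          rw [hψ1 _ (by
            have hp := pk_pos w K
            rw [abs_div, abs_of_pos (by positivity : 0 < pk w K / 2), div_le_iff₀ (by positivity)]
            linarith), sub_self, mul_zero]
        rw [k2, indicator_of_notMem (show u ∉ {u : ℝ | 300 * l ≤ |u|} from hu)]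
        simp
    refine (mul_le_mul_right k1 _).trans ?_
    rw [← ENNReal.ofReal_mul (by positivity)]
    refine ENNReal.ofReal_le_ofReal ?_
    have k4 : 2 * Real.pi * C ≤ (ε / 4) ^ 2 * L ^ 4 := by
      have k5 : 2 * Real.pi * C * 16 / ε ^ 2 ≤ L := by linarith
      rw [div_le_iff₀ (by positivity)] at k5
      have k6 : L ≤ L ^ 4 := by
        calc L = L ^ 1 := (pow_one L).symm
          _ ≤ L ^ 4 := pow_le_pow_right₀ hL1 (by norm_num)
      have k7 : ε ^ 2 * L ≤ ε ^ 2 * L ^ 4 := mul_le_mul_of_nonneg_left k6 (by positivity)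
      have k8 : (ε / 4) ^ 2 * L ^ 4 = ε ^ 2 * L ^ 4 / 16 := by ring
      rw [k8, le_div_iff₀ (by norm_num)]
      linarith
    calc T * (2 * Real.pi) * (C * T) = (2 * Real.pi * C) * T ^ 2 := by ring
      _ ≤ (ε / 4) ^ 2 * L ^ 4 * T ^ 2 := mul_le_mul_of_nonneg_right k4 (by positivity)
      _ = _ := by ring
  -- the sum
  have c0 : Measurable fun t => ENNReal.ofReal ‖SB A B δ w0 S β t‖ :=
    ENNReal.measurable_ofReal.comp (sb_cont i0).norm.measurable
  have ck : ∀ k, Measurable fun t => ENNReal.ofReal ‖SB A B δ (wk k) S β t‖ := fun k =>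
    ENNReal.measurable_ofReal.comp (sb_cont (ik k)).norm.measurable
  have hsum : ∫⁻ t in Icc T (2 * T), ENNReal.ofReal ‖SB A B δ (wd lam H) S β t‖ ≤
      (∫⁻ t in Icc T (2 * T), ENNReal.ofReal ‖SB A B δ w0 S β t‖) +
        (∑ k ∈ Finset.range (K + 1), ∫⁻ t in Icc T (2 * T),
          ENNReal.ofReal ‖SB A B δ (wk k) S β t‖) +
        ∫⁻ t in Icc T (2 * T), ENNReal.ofReal ‖SB A B δ wt S β t‖ := by
    have cs : Measurable fun t => ∑ k ∈ Finset.range (K + 1),
        ENNReal.ofReal ‖SB A B δ (wk k) S β t‖ := Finset.measurable_fun_sum _ fun k _ => ck k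
    have cA : Measurable fun t => ENNReal.ofReal ‖SB A B δ w0 S β t‖ +
        ∑ k ∈ Finset.range (K + 1), ENNReal.ofReal ‖SB A B δ (wk k) S β t‖ := c0.add cs
    rw [← lintegral_finsetSum _ fun k _ => ck k, ← lintegral_add_left c0,
      ← lintegral_add_left cA]
    refine lintegral_mono fun t => ?_
    show ENNReal.ofReal ‖SB A B δ (wd lam H) S β t‖ ≤ ENNReal.ofReal ‖SB A B δ w0 S β t‖ +
      ∑ k ∈ Finset.range (K + 1), ENNReal.ofReal ‖SB A B δ (wk k) S β t‖ +
        ENNReal.ofReal ‖SB A B δ wt S β t‖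
    rw [hdec t, ← ENNReal.ofReal_sum_of_nonneg fun k _ => norm_nonneg _,
      ← ENNReal.ofReal_add (norm_nonneg _) (Finset.sum_nonneg fun k _ => norm_nonneg _),
      ← ENNReal.ofReal_add (add_nonneg (norm_nonneg _)
        (Finset.sum_nonneg fun k _ => norm_nonneg _)) (norm_nonneg _)]
    refine ENNReal.ofReal_le_ofReal ((norm_add_le _ _).trans (add_le_add_left ?_ _))
    exact (norm_add_le _ _).trans (add_le_add_right (norm_sum_le _ _) _)
  refine hsum.trans ((add_le_add (add_le_add X0 (Finset.sum_le_sum Xk)) Xt).trans ?_)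
  have hpos : ∀ k ∈ Finset.range (K + 1),
      0 ≤ a * Cs / lam ^ 6 * (T * L ^ 2) * (2 ^ k * pk w k / jk w k ^ 6) := fun k _ => by
    have := jk_ge hw k
    have hpk := pk_pos w k
    positivity
  rw [← ENNReal.ofReal_sum_of_nonneg hpos, ← ENNReal.ofReal_add (by positivity)
    (Finset.sum_nonneg hpos), ← ENNReal.ofReal_add (add_nonneg (by positivity)
      (Finset.sum_nonneg hpos)) (by positivity)]
  refine ENNReal.ofReal_le_ofReal ?_
  rw [← Finset.mul_sum]
  have k1 : a * Cs / lam ^ 6 * (T * L ^ 2) *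
      ∑ k ∈ Finset.range (K + 1), 2 ^ k * pk w k / jk w k ^ 6 ≤
      a * Cs / lam ^ 6 * (T * L ^ 2) * (pk w 0 + 10) := by
    refine mul_le_mul_of_nonneg_left ?_ (by positivity)
    have := num hw K
    have h9 : (0 : ℝ) < (1 / 8) ^ K := by positivity
    linarith
  have k2 : a * Cs / lam ^ 6 * (T * L ^ 2) * (pk w 0 + 10) =
      a * Cs * (pk w 0 + 10) / lam ^ 6 * (T * L ^ 2) := by ring
  have k3 : a * Cs * (pk w 0 + 10) / lam ^ 6 * (T * L ^ 2) ≤ ε / 4 * (T * L ^ 2) :=
    mul_le_mul_of_nonneg_right hZ6 (by positivity)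
  have k4 : 0 < ε * (T * L ^ 2) := by positivity
  have k5 : ε / 4 * T * L ^ 2 = ε / 4 * (T * L ^ 2) := by ring
  have k6 : ε * T * L ^ 2 = ε * (T * L ^ 2) := by ring
  rw [k5, k6]
  linarith

end Pool.Agent.Lib.MP_6bc78b_nt.GP.H62E
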