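import Pool.Agent.Lib.MP_6bc78b_nt.GP.H62.Count11
import Pool.Agent.Lib.MP_6bc78b_nt.GP.H43.Defs11t
import Pool.Agent.Lib.MP_6bc78b_nt.GP.H94.Fin10t

/-! Project GP11, row COUNT11T, and the last row for any threshold. -/

set_option autoImplicit false

open Complex Filter Topology MeasureTheory ArithmeticFunction Set
open scoped ENNReal

namespace Pool.Agent.Lib.MP_6bc78b_nt.GP.H62N

open Pool.Agent.Lib.MP_6bc78b_nt Pool.Agent.Lib.MP_6bc78b_nt.MS Pool.Agent.Lib.MP_6bc78b_nt.MS.P1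
open Pool.Agent.Lib.MP_6bc78b_nt.GP Pool.Agent.Lib.MP_6bc78b_nt.GP.G11
open Pool.Agent.Lib.MP_6bc78b_nt.GP.H35F

/-- The last row for any threshold. -/
theorem count_gen {ε lam A : ℝ} (hε : 0 < ε) (hlam : 0 < lam) (hA : 0 < A) (f g : ℝ → ℝ)
    (hfg : ∃ T1 : ℝ, ∀ T X : ℝ, T1 ≤ T → Real.sqrt T ≤ X → f T ≤ g X)
    (h9 : ∃ T0 : ℝ, 10 < T0 ∧ ∀ T : ℝ, T0 ≤ T →
      volume {t : ℝ | T ≤ t ∧ t ≤ 2 * T ∧ ((zn t lam (g T)).ncard : ℝ) ≤ 8 * lam * A} ≤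
        ENNReal.ofReal (ε / 80 * T)) :
    ∃ T0 : ℝ, 10 < T0 ∧ ∀ T : ℝ, T0 ≤ T →
      volume {t : ℝ | 0 ≤ t ∧ t ≤ T ∧ ∃ h : ℝ, 8 * lam ≤ h ∧ h ≤ T ∧
        (({γ : ℝ | t < γ ∧ γ < t + h ∧ zeroMult γ = 1 ∧
          f T ≤ |deriv hardyZ γ|}.ncard : ℕ) : ℝ) ≤ A * h} ≤ ENNReal.ofReal (ε * T) := by
  obtain ⟨a, ha⟩ : ∃ a : ℝ, a = 8 * lam * A := ⟨_, rfl⟩
  have ha0 : 0 < a := by rw [ha]; positivity
  rw [← ha] at h9
  obtain ⟨T₇, hT₇, g7⟩ := h9
  obtain ⟨T1, hT1⟩ := hfg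
  refine ⟨max (16 * T₇ / ε) (max ((16 / ε) ^ 2) (max T1 11)),
    lt_of_lt_of_le (by norm_num) ((le_max_right T1 11).trans ((le_max_right _ _).trans
      (le_max_right _ _))), fun T hT => ?_⟩
  have hTa : 16 * T₇ / ε ≤ T := (le_max_left _ _).trans hT
  have r1 := (le_max_right _ _).trans hT
  have hTε2 : (16 / ε) ^ 2 ≤ T := (le_max_left _ _).trans r1
  have r2 := (le_max_right _ _).trans r1
  have hTb : T1 ≤ T := (le_max_left _ _).trans r2
  have hTc : 11 ≤ T := (le_max_right _ _).trans r2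
  clear r1 r2
  have hTε : 16 * T₇ ≤ T * ε := by rwa [div_le_iff₀ hε] at hTa
  have hT0 : 0 < T := by linarith
  obtain ⟨L, hLd⟩ : ∃ L : ℝ, L = f T := ⟨_, rfl⟩
  rw [← hLd]
  -- the bad centres
  obtain ⟨S, hS⟩ : ∃ S : Set ℝ, S = {s : ℝ | ((zn s lam L).ncard : ℝ) ≤ a} := ⟨_, rfl⟩
  obtain ⟨m, hm⟩ : ∃ m : ℝ, m = ε * T / 8 := ⟨_, rfl⟩
  have hm0 : 0 < m := by rw [hm]; positivity
  have hblock : ∀ X : ℝ, m / 2 ≤ X → 2 * X ≤ 2 * T →
      volume (S ∩ Set.Icc X (2 * X)) ≤ ENNReal.ofReal (ε / 80 * X) := by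
    intro X hX hXT
    have hX7 : T₇ ≤ X := by
      refine le_trans ?_ hX
      rw [hm]
      linarith
    have hsX : Real.sqrt T ≤ X := by
      refine le_trans ?_ hX
      rw [hm]
      have hs : 16 / ε ≤ Real.sqrt T := Real.le_sqrt_of_sq_le hTε2
      rw [div_le_iff₀ hε] at hs
      have hss : Real.sqrt T * Real.sqrt T = T := Real.mul_self_sqrt hT0.le
      have hs0 : 0 < Real.sqrt T := Real.sqrt_pos.2 hT0
      have e2 : Real.sqrt T * 16 ≤ Real.sqrt T * (Real.sqrt T * ε) :=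
        mul_le_mul_of_nonneg_left hs hs0.le
      have e3 : Real.sqrt T * (Real.sqrt T * ε) = T * ε := by rw [← mul_assoc, hss]
      linarith
    have hLX := hT1 T X hTb hsX
    rw [← hLd] at hLX
    refine (measure_mono ?_).trans (g7 X hX7)
    rintro s ⟨hs, hs1, hs2⟩
    rw [hS] at hs
    refine ⟨hs1, hs2, le_trans ?_ (show ((zn s lam L).ncard : ℝ) ≤ a from hs)⟩
    have hsub : zn s lam (g X) ⊆ zn s lam L := fun γ hγ =>
      ⟨hγ.1, hγ.2.1, hLX.trans hγ.2.2⟩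
    exact_mod_cast Set.ncard_le_ncard hsub (zn_fin s lam L)
  obtain ⟨n, hn⟩ : ∃ n : ℕ, 2 * T < 2 ^ n * m := by
    obtain ⟨n, hn⟩ := pow_unbounded_of_one_lt (2 * T / m) (by norm_num : (1 : ℝ) < 2)
    refine ⟨n, ?_⟩
    rwa [div_lt_iff₀ hm0] at hn
  have hvol := H27F.halve (by positivity : 0 ≤ ε / 80) hm0 hblock n (2 * T)
    (by positivity) le_rfl hn
  obtain ⟨U, hUd⟩ : ∃ U : Set ℝ, U = toMeasurable volume (S ∩ Set.Icc m (2 * T)) := ⟨_, rfl⟩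
  have hUm : MeasurableSet U := hUd ▸ measurableSet_toMeasurable _ _
  have hUv : volume U ≤ ENNReal.ofReal (ε / 80 * (2 * T)) := by
    rw [hUd, measure_toMeasurable]
    exact hvol
  have hSU : S ∩ Set.Icc m (2 * T) ⊆ U := hUd ▸ subset_toMeasurable _ _
  have hsub : {t : ℝ | 0 ≤ t ∧ t ≤ T ∧ ∃ h : ℝ, 8 * lam ≤ h ∧ h ≤ T ∧
        (({γ : ℝ | t < γ ∧ γ < t + h ∧ zeroMult γ = 1 ∧
          L ≤ |deriv hardyZ γ|}.ncard : ℕ) : ℝ) ≤ A * h} ⊆
      Set.Icc 0 m ∪ {t : ℝ | ∃ h : ℝ, 0 < h ∧ h ≤ T ∧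
        ENNReal.ofReal (h / 4) ≤ volume (U ∩ Ioo t (t + h))} := by
    rintro t ⟨ht0, ht1, h, hh1, hh2, ht2⟩
    by_cases htm : t ≤ m
    · exact Or.inl ⟨ht0, htm⟩
    push Not at htm
    have hh0 : 0 < h := by linarith
    refine Or.inr ⟨h, hh0, hh2, ?_⟩
    have hfin : {γ : ℝ | t < γ ∧ γ < t + h ∧ zeroMult γ = 1 ∧
        L ≤ |deriv hardyZ γ|}.Finite :=
      (H27F.win_fin t (t + h)).subset fun γ hγ => ⟨hγ.1, hγ.2.1, hγ.2.2.1⟩
    obtain ⟨F, hF⟩ : ∃ F : Finset ℝ, F = hfin.toFinset := ⟨_, rfl⟩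
    have hFm : ∀ γ : ℝ, γ ∈ F ↔ t < γ ∧ γ < t + h ∧ zeroMult γ = 1 ∧
        L ≤ |deriv hardyZ γ| := fun γ => by
      rw [hF, Set.Finite.mem_toFinset]
      rfl
    have hcard : (F.card : ℝ) ≤ A * h := by
      rw [hF, ← Set.ncard_eq_toFinset_card _ hfin]
      exact ht2
    have hcard2 : 8 * lam * (F.card : ℝ) ≤ a * h := by
      have := mul_le_mul_of_nonneg_left hcard (by positivity : 0 ≤ 8 * lam)
      rw [ha]
      linarith
    refine many11 hlam ha0 hh1 hcard2 fun s hs hsU => ?_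
    have hsS : s ∉ S := fun hsS => hsU (hSU ⟨hsS, by linarith [hs.1], by linarith [hs.2]⟩)
    rw [hS] at hsS
    have k1 : a < ((zn s lam L).ncard : ℝ) := by
      by_contra hcon
      exact hsS (not_lt.1 hcon)
    refine k1.le.trans ?_
    have k2 : zn s lam L ⊆ ((F.filter fun γ => |γ - s| < lam : Finset ℝ) : Set ℝ) := by
      rintro γ ⟨h1, h2, h3⟩
      have h4 := abs_lt.1 h1
      have h5 : zeroMult γ = 1 := by rw [← MS.P4.H30.mz_eq]; exact h2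
      rw [Finset.mem_coe, Finset.mem_filter]
      refine ⟨(hFm γ).2 ⟨by linarith [hs.1, h4.1], by linarith [hs.2, h4.2], h5, ?_⟩, h1⟩
      rw [dhz9 (H27F.zero_of_zeroMult h5)]
      exact h3
    have k3 := Set.ncard_le_ncard k2 (Finset.finite_toSet _)
    rw [Set.ncard_coe_finset] at k3
    exact_mod_cast k3
  refine (measure_mono hsub).trans ((measure_union_le _ _).trans ?_)
  rw [Real.volume_Icc, sub_zero]
  refine (add_le_add le_rfl ((winall hUm T).trans (mul_le_mul_right hUv 20))).trans ?_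
  have e4 : (20 : ℝ≥0∞) = ENNReal.ofReal 20 := by norm_num
  rw [e4, ← ENNReal.ofReal_mul (by norm_num), ← ENNReal.ofReal_add hm0.le (by positivity)]
  refine ENNReal.ofReal_le_ofReal ?_
  rw [hm]
  have := mul_pos hε hT0
  nlinarith

/-- **COUNT11T.** -/
theorem count11t (h9 : CHB11TStatement) : Count11TStatement := by
  intro hRH ε hε
  obtain ⟨lam, hlam1, g6⟩ := h9 hRH (ε / 80) (by positivity)
  have hlam : 0 < lam := by linarith
  refine ⟨8 * lam, by linarith, fun A hA => ?_⟩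
  refine count_gen hε hlam hA (fun T => Real.log T *
    Real.exp (Real.sqrt (Real.log (Real.log T) * Real.log (Real.log (Real.log T))))) thT ?_
    (g6 (8 * lam * A) (by positivity))
  obtain ⟨T1, hT1⟩ := eventually_atTop.1 (H94T.ev_log3 16)
  refine ⟨max T1 10, fun T X hT hX => ?_⟩
  have hTc : 10 ≤ T := (le_max_right _ _).trans hT
  have hT0 : 0 < T := by linarith
  refine H94T.thr hTc (hT1 T ((le_max_left _ _).trans hT)) ?_
  have e1 : Real.log T / 2 = Real.log (Real.sqrt T) := by rw [Real.log_sqrt hT0.le]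
  rw [e1]
  exact Real.log_le_log (Real.sqrt_pos.2 hT0) hX

end Pool.Agent.Lib.MP_6bc78b_nt.GP.H62N
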