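import Pool.Agent.Lib.MP_6bc78b_nt.GP.H62.Defs11q
import Pool.Agent.Lib.MP_6bc78b_nt.GP.H6.Final9p

/-! Project GP11: from `zeroMult γ = 1` to `Z(γ) = 0` in the definition of the poor points. -/

set_option autoImplicit false

namespace Pool.Agent.Lib.MP_6bc78b_nt.GP.H62N

open Pool.Agent.Lib.MP_6bc78b_nt

/-- Zeros with a large derivative are the simple zeros with a large derivative. -/
theorem set_eq {t h L : ℝ} (hL : 0 < L) :
    {γ : ℝ | t < γ ∧ γ < t + h ∧ hardyZ γ = 0 ∧ L ≤ |deriv hardyZ γ|} =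
      {γ : ℝ | t < γ ∧ γ < t + h ∧ zeroMult γ = 1 ∧ L ≤ |deriv hardyZ γ|} := by
  ext γ
  constructor
  · rintro ⟨h1, h2, h3, h4⟩
    refine ⟨h1, h2, H6.mult_one h3 ?_, h4⟩
    intro h5
    rw [h5, abs_zero] at h4
    linarith
  · rintro ⟨h1, h2, h3, h4⟩
    refine ⟨h1, h2, ?_, h4⟩
    by_contra h0
    have m0 : 0 ∈ {m : ℕ | iteratedDeriv m hardyZ γ ≠ 0} := by
      show iteratedDeriv 0 hardyZ γ ≠ 0
      rwa [iteratedDeriv_zero]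
    have h5 : sInf {m : ℕ | iteratedDeriv m hardyZ γ ≠ 0} ≤ 0 := Nat.sInf_le m0
    unfold zeroMult at h3
    omega

/-- The last step, every constant `M`. -/
theorem last11 (h11 : G11.Count11Statement) (hRH : RiemannHypothesis) :
    ∀ ε : ℝ, 0 < ε → ∃ h₀ : ℝ, 1 ≤ h₀ ∧ ∀ M : ℝ, 0 < M → ∃ T₀ : ℝ, 1 < T₀ ∧
      ∀ T : ℝ, T₀ ≤ T →
      MeasureTheory.volume {t : ℝ | 0 ≤ t ∧ t ≤ T ∧ ∃ h : ℝ, h₀ ≤ h ∧ h ≤ T ∧
        (({γ : ℝ | t < γ ∧ γ < t + h ∧ hardyZ γ = 0 ∧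
          M * Real.log T ≤ |deriv hardyZ γ|}.ncard : ℕ) : ℝ) ≤ M * h} ≤
      ENNReal.ofReal (ε * T) := by
  intro ε hε
  obtain ⟨h₀, hh₀, H⟩ := h11 hRH ε hε
  refine ⟨h₀, hh₀, fun M hM => ?_⟩
  obtain ⟨T₀, hT₀, H⟩ := H M M hM hM
  refine ⟨T₀, by linarith, fun T hT => ?_⟩
  have hL : 0 < M * Real.log T := mul_pos hM (Real.log_pos (by linarith))
  simp only [set_eq hL]
  exact H T hT

/-- The last step, every power of `log log log T`. -/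
theorem last11q (h11 : G11.Count11QStatement) (hRH : RiemannHypothesis) :
    ∀ ε : ℝ, 0 < ε → ∃ h₀ : ℝ, 1 ≤ h₀ ∧ ∀ A : ℕ, ∃ T₀ : ℝ, 1 < T₀ ∧ ∀ T : ℝ, T₀ ≤ T →
      MeasureTheory.volume {t : ℝ | 0 ≤ t ∧ t ≤ T ∧ ∃ h : ℝ, h₀ ≤ h ∧ h ≤ T ∧
        (({γ : ℝ | t < γ ∧ γ < t + h ∧ hardyZ γ = 0 ∧
          Real.log T * Real.log (Real.log (Real.log T)) ^ A ≤ |deriv hardyZ γ|}.ncard : ℕ) : ℝ) ≤
            A * h} ≤
      ENNReal.ofReal (ε * T) := by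
  intro ε hε
  obtain ⟨h₀, hh₀, H⟩ := h11 hRH ε hε
  refine ⟨h₀, hh₀, fun A => ?_⟩
  obtain ⟨T₁, hT₁, H⟩ := H A
  refine ⟨max T₁ (Real.exp (Real.exp (Real.exp 1))),
    lt_of_lt_of_le (by linarith) (le_max_left _ _), fun T hT => ?_⟩
  have hT1 : T₁ ≤ T := (le_max_left _ _).trans hT
  have hT2 : Real.exp (Real.exp (Real.exp 1)) ≤ T := (le_max_right _ _).trans hT
  have hT0 : 0 < T := lt_of_lt_of_le (Real.exp_pos _) hT2
  have hL : Real.exp (Real.exp 1) ≤ Real.log T := (Real.le_log_iff_exp_le hT0).2 hT2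
  have hL0 : 0 < Real.log T := lt_of_lt_of_le (Real.exp_pos _) hL
  have hLL : Real.exp 1 ≤ Real.log (Real.log T) := (Real.le_log_iff_exp_le hL0).2 hL
  have hLL0 : 0 < Real.log (Real.log T) := lt_of_lt_of_le (Real.exp_pos _) hLL
  have hLLL : 1 ≤ Real.log (Real.log (Real.log T)) := (Real.le_log_iff_exp_le hLL0).2 hLL
  have hM : 0 < Real.log T * Real.log (Real.log (Real.log T)) ^ A := by positivity
  simp only [set_eq hM]
  exact H T hT1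

end Pool.Agent.Lib.MP_6bc78b_nt.GP.H62N
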