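import Pool.Agent.Lib.MP_6bc78b_nt.GP.H43.Defs11t
import Pool.Agent.Lib.MP_6bc78b_nt.GP.H62.Last11

/-! Project GP11: from `zeroMult γ = 1` to `Z(γ) = 0` in the definition of the poor points,
very large derivatives. -/

set_option autoImplicit false

namespace Pool.Agent.Lib.MP_6bc78b_nt.GP.H62N

open Pool.Agent.Lib.MP_6bc78b_nt

/-- The last step. -/
theorem last11t (h11 : G11.Count11TStatement) (hRH : RiemannHypothesis) :
    ∀ ε : ℝ, 0 < ε → ∃ h₀ : ℝ, 1 ≤ h₀ ∧ ∀ A : ℝ, 0 < A → ∃ T₀ : ℝ, 1 < T₀ ∧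
      ∀ T : ℝ, T₀ ≤ T →
      MeasureTheory.volume {t : ℝ | 0 ≤ t ∧ t ≤ T ∧ ∃ h : ℝ, h₀ ≤ h ∧ h ≤ T ∧
        (({γ : ℝ | t < γ ∧ γ < t + h ∧ hardyZ γ = 0 ∧
          Real.log T * Real.exp (Real.sqrt
            (Real.log (Real.log T) * Real.log (Real.log (Real.log T)))) ≤
              |deriv hardyZ γ|}.ncard : ℕ) : ℝ) ≤ A * h} ≤
      ENNReal.ofReal (ε * T) := by
  intro ε hε
  obtain ⟨h₀, hh₀, H⟩ := h11 hRH ε hε
  refine ⟨h₀, hh₀, fun A hA => ?_⟩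
  obtain ⟨T₀, hT₀, H⟩ := H A hA
  refine ⟨T₀, by linarith, fun T hT => ?_⟩
  have hL : 0 < Real.log T * Real.exp (Real.sqrt
      (Real.log (Real.log T) * Real.log (Real.log (Real.log T)))) :=
    mul_pos (Real.log_pos (by linarith)) (Real.exp_pos _)
  simp only [set_eq hL]
  exact H T hT

end Pool.Agent.Lib.MP_6bc78b_nt.GP.H62N
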