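import Pool.Agent.Lib.MP_6bc78b_nt.GP.H11.Defs11
import Pool.Agent.Lib.MP_6bc78b_nt.GP.H35.Fin10

/-! Project GP11, row COUNT11: all lengths at once, many simple zeros in every window. -/

set_option autoImplicit false

open Complex Filter Topology MeasureTheory ArithmeticFunction Set
open scoped ENNReal

namespace Pool.Agent.Lib.MP_6bc78b_nt.GP.H62N

open Pool.Agent.Lib.MP_6bc78b_nt Pool.Agent.Lib.MP_6bc78b_nt.MS Pool.Agent.Lib.MP_6bc78b_nt.MS.P1
open Pool.Agent.Lib.MP_6bc78b_nt.GP.G11 Pool.Agent.Lib.MP_6bc78b_nt.GP.H35F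

/-- Few points of `F` in the window: many centres in it with few points nearby. -/
theorem many11 {U : Set ℝ} {F : Finset ℝ} {t h lam a : ℝ} (hlam : 0 < lam) (ha : 0 < a)
    (hh : 8 * lam ≤ h) (hF : 8 * lam * (F.card : ℝ) ≤ a * h)
    (hbad : ∀ s ∈ Ioo (t + lam) (t + h - lam), s ∉ U →
      a ≤ ((F.filter fun γ => |γ - s| < lam).card : ℝ)) :
    ENNReal.ofReal (h / 4) ≤ volume (U ∩ Ioo t (t + h)) := by
  obtain ⟨f, hf⟩ : ∃ f : ℝ → ℝ≥0∞, f = fun s => ∑ γ ∈ F,
      (Ioo (γ - lam) (γ + lam)).indicator (fun _ => (1 : ℝ≥0∞)) s := ⟨_, rfl⟩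
  have hfm : Measurable f := by
    rw [hf]
    exact Finset.measurable_fun_sum _ fun γ _ => measurable_const.indicator measurableSet_Ioo
  have hfc : ∀ s : ℝ, f s = ((F.filter fun γ => |γ - s| < lam).card : ℝ≥0∞) := by
    intro s
    rw [hf]
    show ∑ γ ∈ F, (Ioo (γ - lam) (γ + lam)).indicator (fun _ => (1 : ℝ≥0∞)) s = _
    rw [Finset.card_filter]
    push_cast
    refine Finset.sum_congr rfl fun γ _ => ?_
    by_cases hγ : |γ - s| < lam
    · have h1 := abs_lt.1 hγ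
      rw [if_pos hγ, indicator_of_mem (show s ∈ Ioo (γ - lam) (γ + lam) from
        ⟨by linarith [h1.2], by linarith [h1.1]⟩)]
    · rw [if_neg hγ, indicator_of_notMem (fun hs : s ∈ Ioo (γ - lam) (γ + lam) =>
        hγ (abs_lt.2 ⟨by linarith [hs.2], by linarith [hs.1]⟩))]
  have hint : ∫⁻ s : ℝ, f s = ENNReal.ofReal (2 * lam * F.card) := by
    rw [hf]
    rw [lintegral_finsetSum _ fun γ _ => measurable_const.indicator measurableSet_Ioo]
    have k1 : ∀ γ ∈ F, ∫⁻ s : ℝ, (Ioo (γ - lam) (γ + lam)).indicator (fun _ => (1 : ℝ≥0∞)) s =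
        ENNReal.ofReal (2 * lam) := by
      intro γ _
      rw [lintegral_indicator measurableSet_Ioo, lintegral_const, Measure.restrict_apply_univ,
        Real.volume_Ioo, one_mul]
      congr 1
      ring
    rw [Finset.sum_congr rfl k1, Finset.sum_const, nsmul_eq_mul, ← ENNReal.ofReal_natCast,
      ← ENNReal.ofReal_mul (Nat.cast_nonneg _)]
    congr 1
    ring
  have hsub : Ioo (t + lam) (t + h - lam) ⊆
      (U ∩ Ioo t (t + h)) ∪ {s : ℝ | ENNReal.ofReal a ≤ f s} := by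
    intro s hs
    by_cases hsU : s ∈ U
    · exact Or.inl ⟨hsU, by linarith [hs.1], by linarith [hs.2]⟩
    · refine Or.inr ?_
      show ENNReal.ofReal a ≤ f s
      rw [hfc s, ← ENNReal.ofReal_natCast]
      exact ENNReal.ofReal_le_ofReal (hbad s hs hsU)
  have h1 : volume {s : ℝ | ENNReal.ofReal a ≤ f s} ≤ ENNReal.ofReal (h / 4) := by
    refine (meas_ge_le_lintegral_div hfm.aemeasurable (by simpa using ha)
      ENNReal.ofReal_ne_top).trans ?_
    rw [hint, ← ENNReal.ofReal_div_of_pos ha]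
    refine ENNReal.ofReal_le_ofReal ?_
    rw [div_le_iff₀ ha]
    linarith
  have h2 := (measure_mono (μ := volume) hsub).trans (measure_union_le _ _)
  rw [Real.volume_Ioo] at h2
  have h3 : ENNReal.ofReal (h / 4) + ENNReal.ofReal (h / 4) ≤
      volume (U ∩ Ioo t (t + h)) + ENNReal.ofReal (h / 4) := by
    refine le_trans ?_ (h2.trans (add_le_add le_rfl h1))
    rw [← ENNReal.ofReal_add (by linarith) (by linarith)]
    exact ENNReal.ofReal_le_ofReal (by linarith)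
  exact (ENNReal.add_le_add_iff_right ENNReal.ofReal_ne_top).1 h3

/-- The simple zeros near a centre are finitely many. -/
theorem zn_fin (t lam L : ℝ) : (zn t lam L).Finite := by
  refine (H27F.win_fin (t - lam) (t + lam)).subset ?_
  rintro γ ⟨h1, h2, -⟩
  have h3 := abs_lt.1 h1
  exact ⟨by linarith [h3.1], by linarith [h3.2], by rw [← MS.P4.H30.mz_eq]; exact h2⟩

/-- **COUNT11.** -/
theorem count11 (h9 : CHB11Statement) : Count11Statement := by
  intro hRH ε hε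
  obtain ⟨lam, hlam1, g6⟩ := h9 hRH (ε / 80) (by positivity)
  have hlam : 0 < lam := by linarith
  refine ⟨8 * lam, by linarith, fun A M hA hM => ?_⟩
  obtain ⟨a, ha⟩ : ∃ a : ℝ, a = 8 * lam * A := ⟨_, rfl⟩
  have ha0 : 0 < a := by rw [ha]; positivity
  obtain ⟨T₇, hT₇, g7⟩ := g6 a (2 * M) ha0 (by positivity)
  refine ⟨max (16 * T₇ / ε) (max ((16 / ε) ^ 2) 11),
    lt_of_lt_of_le (by norm_num) ((le_max_right _ _).trans (le_max_right _ _)), fun T hT => ?_⟩
  have hTa : 16 * T₇ / ε ≤ T := (le_max_left _ _).trans hT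
  have r1 := (le_max_right _ _).trans hT
  have hTε2 : (16 / ε) ^ 2 ≤ T := (le_max_left _ _).trans r1
  have hTc : 11 ≤ T := (le_max_right _ _).trans r1
  clear r1
  have hTε : 16 * T₇ ≤ T * ε := by rwa [div_le_iff₀ hε] at hTa
  have hT0 : 0 < T := by linarith
  obtain ⟨L, hLd⟩ : ∃ L : ℝ, L = M * Real.log T := ⟨_, rfl⟩
  rw [← hLd]
  -- the bad centres
  obtain ⟨S, hS⟩ : ∃ S : Set ℝ, S = {s : ℝ | ((zn s lam L).ncard : ℝ) ≤ a} := ⟨_, rfl⟩
  obtain ⟨m, hm⟩ : ∃ m : ℝ, m = ε * T / 8 := ⟨_, rfl⟩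
  have hm0 : 0 < m := by rw [hm]; positivity
  have hblock : ∀ X : ℝ, m / 2 ≤ X → 2 * X ≤ 2 * T →
      volume (S ∩ Set.Icc X (2 * X)) ≤ ENNReal.ofReal (ε / 80 * X) := by
    intro X hX hXT
    have hX7 : T₇ ≤ X := by
      refine le_trans ?_ hX
      rw [hm]
      linarith
    have hsX : Real.sqrt T ≤ X := by
      refine le_trans ?_ hX
      rw [hm]
      have hs : 16 / ε ≤ Real.sqrt T := Real.le_sqrt_of_sq_le hTε2
      rw [div_le_iff₀ hε] at hs
      have hss : Real.sqrt T * Real.sqrt T = T := Real.mul_self_sqrt hT0.le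
      have hs0 : 0 < Real.sqrt T := Real.sqrt_pos.2 hT0
      have e2 : Real.sqrt T * 16 ≤ Real.sqrt T * (Real.sqrt T * ε) :=
        mul_le_mul_of_nonneg_left hs hs0.le
      have e3 : Real.sqrt T * (Real.sqrt T * ε) = T * ε := by rw [← mul_assoc, hss]
      linarith
    have hLX : L ≤ 2 * M * Real.log X := by
      have e1 : Real.log T / 2 = Real.log (Real.sqrt T) := by rw [Real.log_sqrt hT0.le]
      have e2 : Real.log (Real.sqrt T) ≤ Real.log X :=
        Real.log_le_log (Real.sqrt_pos.2 hT0) hsX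
      have e3 : M * (Real.log T / 2) ≤ M * Real.log X :=
        mul_le_mul_of_nonneg_left (e1 ▸ e2) hM.le
      rw [hLd]
      linarith
    refine (measure_mono ?_).trans (g7 X hX7)
    rintro s ⟨hs, hs1, hs2⟩
    rw [hS] at hs
    refine ⟨hs1, hs2, le_trans ?_ (show ((zn s lam L).ncard : ℝ) ≤ a from hs)⟩
    have hsub : zn s lam (2 * M * Real.log X) ⊆ zn s lam L := fun γ hγ =>
      ⟨hγ.1, hγ.2.1, hLX.trans hγ.2.2⟩
    exact_mod_cast Set.ncard_le_ncard hsub (zn_fin s lam L)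
  obtain ⟨n, hn⟩ : ∃ n : ℕ, 2 * T < 2 ^ n * m := by
    obtain ⟨n, hn⟩ := pow_unbounded_of_one_lt (2 * T / m) (by norm_num : (1 : ℝ) < 2)
    refine ⟨n, ?_⟩
    rwa [div_lt_iff₀ hm0] at hn
  have hvol := H27F.halve (by positivity : 0 ≤ ε / 80) hm0 hblock n (2 * T)
    (by positivity) le_rfl hn
  obtain ⟨U, hUd⟩ : ∃ U : Set ℝ, U = toMeasurable volume (S ∩ Set.Icc m (2 * T)) := ⟨_, rfl⟩
  have hUm : MeasurableSet U := hUd ▸ measurableSet_toMeasurable _ _
  have hUv : volume U ≤ ENNReal.ofReal (ε / 80 * (2 * T)) := by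
    rw [hUd, measure_toMeasurable]
    exact hvol
  have hSU : S ∩ Set.Icc m (2 * T) ⊆ U := hUd ▸ subset_toMeasurable _ _
  have hsub : {t : ℝ | 0 ≤ t ∧ t ≤ T ∧ ∃ h : ℝ, 8 * lam ≤ h ∧ h ≤ T ∧
        (({γ : ℝ | t < γ ∧ γ < t + h ∧ zeroMult γ = 1 ∧
          L ≤ |deriv hardyZ γ|}.ncard : ℕ) : ℝ) ≤ A * h} ⊆
      Set.Icc 0 m ∪ {t : ℝ | ∃ h : ℝ, 0 < h ∧ h ≤ T ∧
        ENNReal.ofReal (h / 4) ≤ volume (U ∩ Ioo t (t + h))} := by
    rintro t ⟨ht0, ht1, h, hh1, hh2, ht2⟩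
    by_cases htm : t ≤ m
    · exact Or.inl ⟨ht0, htm⟩
    push Not at htm
    have hh0 : 0 < h := by linarith
    refine Or.inr ⟨h, hh0, hh2, ?_⟩
    have hfin : {γ : ℝ | t < γ ∧ γ < t + h ∧ zeroMult γ = 1 ∧
        L ≤ |deriv hardyZ γ|}.Finite :=
      (H27F.win_fin t (t + h)).subset fun γ hγ => ⟨hγ.1, hγ.2.1, hγ.2.2.1⟩
    obtain ⟨F, hF⟩ : ∃ F : Finset ℝ, F = hfin.toFinset := ⟨_, rfl⟩
    have hFm : ∀ γ : ℝ, γ ∈ F ↔ t < γ ∧ γ < t + h ∧ zeroMult γ = 1 ∧
        L ≤ |deriv hardyZ γ| := fun γ => by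
      rw [hF, Set.Finite.mem_toFinset]
      rfl
    have hcard : (F.card : ℝ) ≤ A * h := by
      rw [hF, ← Set.ncard_eq_toFinset_card _ hfin]
      exact ht2
    have hcard2 : 8 * lam * (F.card : ℝ) ≤ a * h := by
      have := mul_le_mul_of_nonneg_left hcard (by positivity : 0 ≤ 8 * lam)
      rw [ha]
      linarith
    refine many11 hlam ha0 hh1 hcard2 fun s hs hsU => ?_
    have hsS : s ∉ S := fun hsS => hsU (hSU ⟨hsS, by linarith [hs.1], by linarith [hs.2]⟩)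
    rw [hS] at hsS
    have k1 : a < ((zn s lam L).ncard : ℝ) := by
      by_contra hcon
      exact hsS (not_lt.1 hcon)
    refine k1.le.trans ?_
    have k2 : zn s lam L ⊆ ((F.filter fun γ => |γ - s| < lam : Finset ℝ) : Set ℝ) := by
      rintro γ ⟨h1, h2, h3⟩
      have h4 := abs_lt.1 h1
      have h5 : zeroMult γ = 1 := by rw [← MS.P4.H30.mz_eq]; exact h2
      rw [Finset.mem_coe, Finset.mem_filter]
      refine ⟨(hFm γ).2 ⟨by linarith [hs.1, h4.1], by linarith [hs.2, h4.2], h5, ?_⟩, h1⟩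
      rw [dhz9 (H27F.zero_of_zeroMult h5)]
      exact h3
    have k3 := Set.ncard_le_ncard k2 (Finset.finite_toSet _)
    rw [Set.ncard_coe_finset] at k3
    exact_mod_cast k3
  refine (measure_mono hsub).trans ((measure_union_le _ _).trans ?_)
  rw [Real.volume_Icc, sub_zero]
  refine (add_le_add le_rfl ((winall hUm T).trans (mul_le_mul_right hUv 20))).trans ?_
  have e4 : (20 : ℝ≥0∞) = ENNReal.ofReal 20 := by norm_num
  rw [e4, ← ENNReal.ofReal_mul (by norm_num), ← ENNReal.ofReal_add hm0.le (by positivity)]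
  refine ENNReal.ofReal_le_ofReal ?_
  rw [hm]
  have := mul_pos hε hT0
  nlinarith

end Pool.Agent.Lib.MP_6bc78b_nt.GP.H62N
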