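import Pool.Agent.Lib.MP_6bc78b_nt.GP.H11.Defs11

/-! Project GP11 (MP_6bc78b_nt): the rows NEAR, CHB11, COUNT11 with derivatives at least
`log T` times a power of `log log log T`. -/

set_option autoImplicit false

open Complex Filter Topology MeasureTheory ArithmeticFunction Set
open scoped ENNReal

namespace Pool.Agent.Lib.MP_6bc78b_nt.GP.G11

open Pool.Agent.Lib.MP_6bc78b_nt.MS Pool.Agent.Lib.MP_6bc78b_nt.MS.P1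
open Pool.Agent.Lib.MP_6bc78b_nt.GP Pool.Agent.Lib.MP_6bc78b_nt.GP.G7
open Pool.Agent.Lib.MP_6bc78b_nt.GP.G10

/-- NEARQ: as NEAR, with the threshold `log T (log log log T)^A`. -/
def NEARQStatement : Prop := RiemannHypothesis → ∃ c : ℝ, 0 < c ∧ ∀ ε : ℝ, 0 < ε →
  ∃ lam : ℝ, 1 ≤ lam ∧ ∀ A : ℕ, ∃ T0 : ℝ, 10 < T0 ∧ ∀ T : ℝ, T0 ≤ T →
    ∃ (S : Finset ℕ) (β : ℕ → ℝ) (S2 : Finset ℕ) (β2 : ℕ → ℂ),
      (∀ m ∈ S2, 1 ≤ m ∧ (m : ℝ) ≤ Real.exp (Real.log (Real.log T) ^ 6)) ∧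
      (∀ s : ℂ, cA S2 β2 s = pB S β s ^ 2) ∧ Rf S2 β2 ≤ 2 ∧
      volume {t : ℝ | T ≤ t ∧ t ≤ 2 * T ∧ ∀ F : Finset ℝ,
        (∀ γ : ℝ, γ ∈ F ↔ γ ∈ zn t lam
          (Real.log T * Real.log (Real.log (Real.log T)) ^ A)) →
        ∑ γ ∈ F, ‖deriv riemannZeta (1 / 2 + γ * I)‖ * ‖pB S β (1 / 2 + γ * I)‖ <
          c * lam * Real.log T ^ 2} ≤ ENNReal.ofReal (ε * T)

/-- CHB11Q (NEARQ, TSD, FAM): the centres with at most `a` simple zeros with large derivative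
within `lam(ε)`. -/
def CHB11QStatement : Prop := RiemannHypothesis → ∀ ε : ℝ, 0 < ε → ∃ lam : ℝ, 1 ≤ lam ∧
  ∀ (A : ℕ) (a : ℝ), 0 < a → ∃ T0 : ℝ, 10 < T0 ∧ ∀ T : ℝ, T0 ≤ T →
    volume {t : ℝ | T ≤ t ∧ t ≤ 2 * T ∧
      ((zn t lam (Real.log T * Real.log (Real.log (Real.log T)) ^ A)).ncard : ℝ) ≤ a} ≤
      ENNReal.ofReal (ε * T)

/-- Count11Q: for every `ε` there is `h₀` such that for every `A`, for all large `T`, outside a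
set of `t ∈ [0, T]` of measure at most `ε T`, every window `(t, t + h)`, `h₀ ≤ h ≤ T`, contains
more than `A h` simple zeros with `|Z'| ≥ log T (log log log T)^A`. -/
def Count11QStatement : Prop := RiemannHypothesis → ∀ ε : ℝ, 0 < ε → ∃ h₀ : ℝ, 1 ≤ h₀ ∧
  ∀ A : ℕ, ∃ T0 : ℝ, 10 < T0 ∧ ∀ T : ℝ, T0 ≤ T →
    volume {t : ℝ | 0 ≤ t ∧ t ≤ T ∧ ∃ h : ℝ, h₀ ≤ h ∧ h ≤ T ∧
      (({γ : ℝ | t < γ ∧ γ < t + h ∧ zeroMult γ = 1 ∧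
        Real.log T * Real.log (Real.log (Real.log T)) ^ A ≤ |deriv hardyZ γ|}.ncard : ℕ) : ℝ) ≤
          A * h} ≤
      ENNReal.ofReal (ε * T)

end Pool.Agent.Lib.MP_6bc78b_nt.GP.G11
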