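import Pool.Agent.Lib.MP_6bc78b_nt.GP.H6.Defs5

/-! Project GP7 (MP_6bc78b_nt): simple zeros in almost all windows of length `(log log T)^K`,
under RH. Statements of the rows. The paper proof is finding 5564. -/

set_option autoImplicit false

open Complex Filter Topology MeasureTheory ArithmeticFunction Set
open scoped ENNReal

namespace Pool.Agent.Lib.MP_6bc78b_nt.GP.G7

open Pool.Agent.Lib.MP_6bc78b_nt.MS Pool.Agent.Lib.MP_6bc78b_nt.MS.P1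

/-! ## Exponential sums and Dirichlet polynomials on the line `Re s = 1` -/

/-- `∑_{n ≤ N} c(n) n^{-(1+it)}`. -/
noncomputable def DP (c : ℕ → ℂ) (N : ℕ) (t : ℝ) : ℂ :=
  ∑ n ∈ Finset.Icc 1 N, c n * (n : ℂ) ^ (-(1 + t * I : ℂ))

/-- `∑_{n ≤ N} c(n) e^{-nz}`. -/
noncomputable def EP (c : ℕ → ℂ) (N : ℕ) (z : ℂ) : ℂ :=
  ∑ n ∈ Finset.Icc 1 N, c n * Complex.exp (-(n * z))

/-- `∑ α(n) e^{-nz}` (all `n`). -/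
noncomputable def ES (α : ℕ → ℝ) (z : ℂ) : ℂ := ∑' n : ℕ, (α n : ℂ) * Complex.exp (-(n * z))

/-- The strip. -/
def strip (a b R T : ℝ) : Set ℂ := {z : ℂ | a / T ≤ z.re ∧ z.re ≤ b / T ∧ |z.im| ≤ R}

/-- The middle part of the strip. -/
def mid (a b T lam2 h : ℝ) : Set ℂ :=
  {z : ℂ | (a / T ≤ z.re ∧ z.re ≤ b / T) ∧ 1 / lam2 ≤ |z.im| ∧ |z.im| ≤ 1 / h}

/-- The weight on the `t`-side. -/
noncomputable def rho (a b T lam2 h t : ℝ) : ℝ :=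
  min 1 ((1 + |t|) * (2 * b * lam2 / T)) * Real.exp (-(a * h / T * |t|))

/-- MVTX: mean value theorem with an exponential weight. -/
def MVTXStatement : Prop := ∃ C : ℝ, 0 < C ∧ ∀ (N : ℕ) (c : ℕ → ℂ) (b : ℝ), 0 < b → b ≤ 1 →
  ∫⁻ t : ℝ, ENNReal.ofReal (‖DP c N t‖ ^ 2 * Real.exp (-(b * |t|))) ≤
    ENNReal.ofReal (C * ∑ n ∈ Finset.Icc 1 N, (1 / b + n) * ‖c n‖ ^ 2 / (n : ℝ) ^ 2)

/-- RAYX (GAMI, PLC, GAMB): one ray. -/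
def RAYXStatement : Prop := ∃ C : ℝ, 0 < C ∧ ∀ (N : ℕ) (c : ℕ → ℂ) (κ φ : ℝ), 0 < κ → κ ≤ 1 →
  |φ| ≤ Real.pi / 2 - κ →
  ∫⁻ r in Ioi (0 : ℝ), ENNReal.ofReal (‖EP c N (r * Complex.exp (φ * I))‖ ^ 2 * r) ≤
    ENNReal.ofReal C * ∫⁻ t : ℝ, ENNReal.ofReal (‖DP c N t‖ ^ 2 *
      ((1 + |t|) * Real.exp (-(2 * κ * |t|))))

/-- POLX (RAYX, polar coordinates): the middle region. -/
def POLXStatement : Prop := ∀ a b : ℝ, 0 < a → a < b → ∃ C T0 : ℝ, 0 < C ∧ 10 < T0 ∧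
  ∀ T h lam2 : ℝ, T0 ≤ T → 1 ≤ h → h ≤ lam2 → lam2 ≤ Real.sqrt T → ∀ (N : ℕ) (c : ℕ → ℂ),
  ∫⁻ z in mid a b T lam2 h, ENNReal.ofReal (‖EP c N z‖ ^ 2) ≤
    ENNReal.ofReal C * ∫⁻ t : ℝ, ENNReal.ofReal (‖DP c N t‖ ^ 2 * rho a b T lam2 h t)

/-- STRX: Parseval on the strip. -/
def STRXStatement : Prop := ∀ a b R : ℝ, 0 < a → a < b → 0 < R → ∃ C : ℝ, 0 < C ∧
  ∀ (T : ℝ) (α : ℕ → ℝ), 10 ≤ T → (∃ D : ℝ, ∀ n : ℕ, |α n| ≤ D * (1 + n)) →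
  ∫⁻ z in strip a b R T, ENNReal.ofReal (‖ES α z‖ ^ 2) ≤
    ENNReal.ofReal (C / T * ∑' n : ℕ, α n ^ 2 * Real.exp (-(2 * a / T * n)))

/-! ## Arithmetic -/

/-- The primes in `(P, Q]`. -/
noncomputable def qs (P Q : ℝ) : Finset ℕ := by
  classical exact (Finset.range (⌊Q⌋₊ + 1)).filter (fun q => q.Prime ∧ P < q)

/-- `W = ∑ 1/q`. -/
noncomputable def Wq (P Q : ℝ) : ℝ := ∑ q ∈ qs P Q, 1 / (q : ℝ)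

/-- The number of primes of `(P, Q]` that divide `n`. -/
noncomputable def omq (P Q : ℝ) (n : ℕ) : ℝ := (((qs P Q).filter (fun q => q ∣ n)).card : ℝ)

/-- `β(n) = ∑_{d | n} Λ(d) log d`. -/
noncomputable def bet (n : ℕ) : ℝ := ∑ d ∈ n.divisors, vonMangoldt d * Real.log d

/-- The piecewise linear hat with the nodes `e^{θ(j-1)}, e^{θj}, e^{θ(j+1)}`. -/
noncomputable def hatw (θ : ℝ) (j : ℕ) (v : ℝ) : ℝ :=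
  max 0 (min ((v - Real.exp (θ * (j - 1))) / (Real.exp (θ * j) - Real.exp (θ * (j - 1))))
    ((Real.exp (θ * (j + 1)) - v) / (Real.exp (θ * (j + 1)) - Real.exp (θ * j))))

/-- The indices: `T^η ≤ e^{j/L} ≤ T^2`. -/
noncomputable def js (η T : ℝ) : Finset ℕ :=
  Finset.Ico ⌈η * Real.log T ^ 2⌉₊ ⌈2 * Real.log T ^ 2⌉₊

/-- `f_j(n) = ∑_{p | n} w_j(p) (log p)²`. -/
noncomputable def fj (T : ℝ) (j n : ℕ) : ℝ :=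
  ∑ p ∈ n.primeFactors, hatw (1 / Real.log T) j p * Real.log p ^ 2

/-- `f = ∑_j f_j`: the large prime factors. -/
noncomputable def ff (η T : ℝ) (n : ℕ) : ℝ := ∑ j ∈ js η T, fj T j n

/-- The smooth part of `bn`. -/
noncomputable def smo (A B : ℝ) (n : ℕ) : ℝ :=
  if n = 0 then 0 else Real.log n ^ 2 / 2 - A * Real.log n - B

/-- BASX: the pieces of `bn`, sizes. -/
def BASXStatement : Prop :=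
  (∀ (A B : ℝ) (n : ℕ), bn A B n = smo A B n - bet n) ∧
  (∀ n : ℕ, 0 ≤ bet n ∧ bet n ≤ Real.log n ^ 2) ∧
  (∀ (η T : ℝ) (n : ℕ), 3 ≤ T → 0 < η → 0 ≤ ff η T n ∧ ff η T n ≤ bet n) ∧
  (∀ (η T : ℝ) (q m : ℕ), 3 ≤ T → 0 < η → 2 ≤ η * Real.log T ^ 2 → q.Prime →
    (q : ℝ) ≤ T ^ (η / 2) → ff η T (q * m) = ff η T m)

/-- ARI0: the size of everything. -/
def ARI0Statement : Prop := ∀ a : ℝ, 0 < a → ∃ C : ℝ, 0 < C ∧ ∀ T : ℝ, 10 ≤ T →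
  Summable (fun n : ℕ => (1 + Real.log n) ^ 4 * Real.exp (-(2 * a / T * n))) ∧
  ∑' n : ℕ, (1 + Real.log n) ^ 4 * Real.exp (-(2 * a / T * n)) ≤ C * T * Real.log T ^ 4

/-- GX: the small primes and the prime powers are small in mean square. -/
def GXStatement : Prop := ∀ a : ℝ, 0 < a → ∃ C : ℝ, 0 < C ∧ ∀ η : ℝ, 0 < η → η ≤ 1 →
  ∃ T0 : ℝ, 10 < T0 ∧ ∀ T : ℝ, T0 ≤ T →
    ∑' n : ℕ, (bet n - ff η T n) ^ 2 * Real.exp (-(2 * a / T * n)) ≤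
      C * η ^ 2 * T * Real.log T ^ 4

/-- TKX: Turán-Kubilius. -/
def TKXStatement : Prop := ∀ a : ℝ, 0 < a → ∃ C T0 : ℝ, 0 < C ∧ 10 < T0 ∧ ∀ T P Q : ℝ, T0 ≤ T →
  2 ≤ P → P < Q → Q ≤ T ^ (1 / 4 : ℝ) → 1 ≤ Wq P Q →
    ∑' n : ℕ, Real.log n ^ 4 * (1 - omq P Q n / Wq P Q) ^ 2 * Real.exp (-(2 * a / T * n)) ≤
      C * T * Real.log T ^ 4 / Wq P Q

/-- RNGX: the ends of the range are small in mean square. -/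
def RNGXStatement : Prop := ∀ a : ℝ, 0 < a → ∃ C : ℝ, 0 < C ∧ ∀ ε : ℝ, 0 < ε → ε < 1 →
  ∃ T0 : ℝ, 10 < T0 ∧ ∀ T P Q : ℝ, T0 ≤ T → 2 ≤ P → P < Q → Q ≤ T ^ (1 / 4 : ℝ) →
    1 ≤ Wq P Q →
    ∑' n : ℕ, (if (n : ℝ) ≤ ε * T ∨ T / ε ≤ n then
      Real.log n ^ 4 * (omq P Q n / Wq P Q) ^ 2 * Real.exp (-(2 * a / T * n)) else 0) ≤
      C * ε * T * Real.log T ^ 4

/-- SMOX: the smooth part away from the real axis. -/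
def SMOXStatement : Prop := ∀ A B a b : ℝ, 0 < a → a < b → ∃ C T0 : ℝ, 0 < C ∧ 10 < T0 ∧
  ∀ (T : ℝ) (z : ℂ), T0 ≤ T → a / T ≤ z.re → z.re ≤ b / T → 0 < |z.im| → |z.im| ≤ 1 →
    ‖ES (smo A B) z‖ ≤ C * Real.log T ^ 2 / |z.im|

/-- MERX: `∑ 1/q` over `(P, P^K]` is large. -/
def MERXStatement : Prop := ∀ w : ℝ, ∃ K : ℕ, 2 ≤ K ∧ ∃ P0 : ℝ, 2 ≤ P0 ∧ ∀ P : ℝ, P0 ≤ P →
  w ≤ Wq P (P ^ K)

/-! ## The two factors on the line `Re s = 1` -/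

/-- `R_j(1+it) = ∑_p w_j(p) (log p)² p^{-(1+it)}`. -/
noncomputable def Rj (T : ℝ) (j : ℕ) (t : ℝ) : ℂ :=
  ∑ p ∈ (Finset.range (⌊Real.exp ((j + 1) / Real.log T)⌋₊ + 1)).filter Nat.Prime,
    ((hatw (1 / Real.log T) j p * Real.log p ^ 2 : ℝ) : ℂ) * (p : ℂ) ^ (-(1 + t * I : ℂ))

/-- PRBX: one block of primes under RH. -/
def PRBXStatement : Prop := RiemannHypothesis → ∃ C T0 : ℝ, 0 < C ∧ 10 < T0 ∧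
  ∀ (T t : ℝ) (j : ℕ), T0 ≤ T → T / Real.log T ^ 6 ≤ |t| → |t| ≤ T ^ 2 → 1 ≤ j →
    (j : ℝ) / Real.log T ≤ Real.log T → ‖Rj T j t‖ ≤
      C * Real.log T ^ 4 * Real.exp (-((j : ℝ) / (2 * Real.log T)))

/-- `Q(1+it) = ∑_q q^{-(1+it)}`. -/
noncomputable def Qp (P Q t : ℝ) : ℂ := ∑ q ∈ qs P Q, (q : ℂ) ^ (-(1 + t * I : ℂ))

/-- CMBX (MVTX): high powers of `Q(1+it)`. -/
def CMBXStatement : Prop := ∃ C : ℝ, 0 < C ∧ ∀ (P Q b : ℝ) (k L1 L2 : ℕ), 2 ≤ P → P < Q →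
  0 < b → b ≤ 1 → (L2 : ℝ) * Q ^ k ≤ 1 / b →
  ∫⁻ t : ℝ, ENNReal.ofReal (‖(∑ l ∈ Finset.Ioc L1 L2, (l : ℂ) ^ (-(1 + t * I : ℂ))) *
      Qp P Q t ^ k‖ ^ 2 * Real.exp (-(b * |t|))) ≤
    ENNReal.ofReal (C / b * (4 * k / P) ^ k * (1 + Real.log (1 + L1)) / (1 + L1))

/-- The parameters. -/
noncomputable def PP (T : ℝ) : ℝ := Real.log (Real.log T) ^ 2
noncomputable def QQ (K : ℕ) (T : ℝ) : ℝ := PP T ^ K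
noncomputable def M1 (ε : ℝ) (K : ℕ) (T : ℝ) : ℝ := ε * T / QQ K T
noncomputable def M2 (ε T : ℝ) : ℝ := T / (ε * PP T)

/-- `M(1+it) = ∑_{M1 < m ≤ M2} f(m) m^{-(1+it)}`. -/
noncomputable def Mp (ε η : ℝ) (K : ℕ) (T t : ℝ) : ℂ :=
  ∑ m ∈ Finset.Ioc ⌊M1 ε K T⌋₊ ⌊M2 ε T⌋₊, (ff η T m : ℂ) * (m : ℂ) ^ (-(1 + t * I : ℂ))

/-- `S(z) = (1/W) ∑_q ∑_{M1 < m ≤ M2} f(m) e^{-qmz}`. -/
noncomputable def Sp (ε η : ℝ) (K : ℕ) (T : ℝ) (z : ℂ) : ℂ :=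
  (1 / (Wq (PP T) (QQ K T) : ℂ)) * ∑ q ∈ qs (PP T) (QQ K T),
    ∑ m ∈ Finset.Ioc ⌊M1 ε K T⌋₊ ⌊M2 ε T⌋₊, (ff η T m : ℂ) * Complex.exp (-(q * m * z))

/-- The integrand on the `t`-side, `lam2 = (log T)²`. -/
noncomputable def gt (a b ε η : ℝ) (K : ℕ) (T h t : ℝ) : ℝ :=
  ‖Qp (PP T) (QQ K T) t * Mp ε η K T t‖ ^ 2 / Wq (PP T) (QQ K T) ^ 2 *
    rho a b T (Real.log T ^ 2) h t

/-- The threshold `V²`. -/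
noncomputable def V2 (δ : ℝ) (K : ℕ) (T : ℝ) : ℝ := δ / (1 + K * Real.log (PP T))

/-- DIRX (POLX): `S(z)` on the middle region against the Dirichlet polynomials. -/
def DIRXStatement : Prop := ∀ a b : ℝ, 0 < a → a < b → ∃ C : ℝ, 0 < C ∧ ∀ (ε η : ℝ) (K : ℕ),
  0 < ε → ε < 1 → 0 < η → 1 ≤ K → ∃ T0 : ℝ, 10 < T0 ∧ ∀ T h : ℝ, T0 ≤ T → 1 ≤ h →
    h ≤ Real.log T ^ 2 → 1 ≤ Wq (PP T) (QQ K T) →
    ∫⁻ z in mid a b T (Real.log T ^ 2) h, ENNReal.ofReal (‖Sp ε η K T z‖ ^ 2) ≤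
      ENNReal.ofReal C * ∫⁻ t : ℝ, ENNReal.ofReal (gt a b ε η K T h t)

/-- LOWX (MVTX, BASX): small `t`, and good `t`. -/
def LOWXStatement : Prop := ∀ a b : ℝ, 0 < a → a < b → ∃ C : ℝ, 0 < C ∧
  ∀ (ε η δ : ℝ) (K : ℕ), 0 < ε → ε < 1 → 0 < η → η < 1 → 0 < δ → δ < 1 → 2 ≤ K →
  ∃ T0 : ℝ, 10 < T0 ∧ ∀ T h : ℝ, T0 ≤ T → QQ K T / ε ≤ h → h ≤ Real.log T ^ 2 →
    1 ≤ Wq (PP T) (QQ K T) →
    ∫⁻ t in {t : ℝ | |t| ≤ T / Real.log T ^ 6 ∨ ‖Qp (PP T) (QQ K T) t‖ ^ 2 ≤ V2 δ K T},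
      ENNReal.ofReal (gt a b ε η K T h t) ≤ ENNReal.ofReal (C * δ * Real.log T ^ 4)

/-- HIGHX (PRBX, CMBX, MVTX, BASX; RH): bad `t`. -/
def HIGHXStatement : Prop := RiemannHypothesis → ∀ (a b ε η δ : ℝ) (K : ℕ), 0 < a → a < b →
  0 < ε → ε < 1 → 0 < η → η < 1 → 0 < δ → δ < 1 → 2 ≤ K →
  ∃ T0 : ℝ, 10 < T0 ∧ ∀ T h : ℝ, T0 ≤ T → QQ K T / ε ≤ h → h ≤ Real.log T ^ 2 →
    1 ≤ Wq (PP T) (QQ K T) →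
    ∫⁻ t in {t : ℝ | T / Real.log T ^ 6 < |t| ∧ V2 δ K T < ‖Qp (PP T) (QQ K T) t‖ ^ 2},
      ENNReal.ofReal (gt a b ε η K T h t) ≤ ENNReal.ofReal (δ * Real.log T ^ 4)

/-- MIDX (DIRX, LOWX, HIGHX, MERX, TKX, RNGX, GX, SMOX, STRX, BASX, ARI0): the middle region. -/
def MIDXStatement : Prop := RiemannHypothesis → ∀ A B a b ε : ℝ, 0 < a → a < b → 0 < ε →
  ∃ K : ℕ, ∃ T0 : ℝ, 10 < T0 ∧ ∀ T h : ℝ, T0 ≤ T → Real.log (Real.log T) ^ K ≤ h →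
    h ≤ Real.log T ^ 2 →
    ∫⁻ z in mid a b T (Real.log T ^ 2) h, ENNReal.ofReal (‖EE A B z‖ ^ 2) ≤
      ENNReal.ofReal (ε * Real.log T ^ 4)

/-! ## Energy -/

/-- ARE7 (MIDX, ARE5, STRX, BASX, ARI0): the strip with the weight `1/(1 + κ₀ lam² y²)`. -/
def ARE7Statement : Prop := RiemannHypothesis → ∀ (A B : ℝ) (D : ℂ → ℂ), IsD A B D →
  ∀ a b R κ₀ ε : ℝ, 0 < a → a < b → 0 < R → 0 < κ₀ → 0 < ε →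
  ∃ K : ℕ, ∃ T0 : ℝ, 10 < T0 ∧ ∀ T lam : ℝ, T0 ≤ T → Real.log (Real.log T) ^ K ≤ lam →
    lam ≤ Real.log T →
    ∫⁻ z in strip a b R T, ENNReal.ofReal (‖EE A B z‖ ^ 2 / (1 + κ₀ * lam ^ 2 * z.im ^ 2)) ≤
      ENNReal.ofReal (ε * Real.log T ^ 4)

/-- TAI7 (Parseval, change of variables as in CHV): the part `|u| > 1/2`. -/
def TAI7Statement : Prop := ∀ A B : ℝ, ∃ C T0 : ℝ, 0 < C ∧ 10 < T0 ∧ ∀ T H : ℝ, T0 ≤ T → 4 ≤ H →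
  ∫⁻ δ in Icc (1 / T) (2 / T), ∫⁻ u in {u : ℝ | 1 / 2 < |u|},
    ENNReal.ofReal (‖EE A B (zp u δ)‖ ^ 2 * Real.exp (-(H ^ 2 * u ^ 2) + u)) ≤
    ENNReal.ofReal (C * Real.log T ^ 4 * Real.exp (-(H ^ 2 / 8)))

/-- AVG7 (ARE7, TAI7, CHV): a good `δ`. -/
def AVG7Statement : Prop := RiemannHypothesis → ∀ (A B : ℝ) (D : ℂ → ℂ), IsD A B D →
  ∀ ε : ℝ, 0 < ε → ∃ K : ℕ, ∃ T0 : ℝ, 10 < T0 ∧ ∀ T H lam : ℝ, T0 ≤ T →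
    Real.log (Real.log T) ^ K ≤ lam → lam ≤ Real.log T → Real.sqrt (Real.log (Real.log T)) ≤ H →
    H ≤ lam →
    ∃ δ ∈ Icc (1 / T) (2 / T),
      ∫⁻ u : ℝ, ENNReal.ofReal (‖EE A B (zp u δ)‖ ^ 2 * Real.exp (-(H ^ 2 * u ^ 2) + u) /
        (1 + lam ^ 2 * u ^ 2)) ≤ ENNReal.ofReal (ε * T * Real.log T ^ 4)

/-! ## Zeros -/

/-- The sum over the far zeros. -/
noncomputable def SF (T H r x : ℝ) : ℝ :=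
  ∑ᶠ γ ∈ {γ : ℝ | (T / 2 < γ ∧ γ < 4 * T ∧ riemannZeta (1 / 2 + γ * I) = 0) ∧
      r * H ≤ |γ - x|},
    ‖deriv riemannZeta (1 / 2 + γ * I)‖ * Real.exp (-((γ - x) ^ 2 / (2 * H ^ 2)))

/-- TLS7 (CEL, MOM6 of helper91): the far zeros in mean. -/
def TLS7Statement : Prop := RiemannHypothesis → ∃ C T0 : ℝ, 0 < C ∧ 10 < T0 ∧
  ∀ T H r : ℝ, T0 ≤ T → 1 ≤ H → 1 ≤ r →
    ∫⁻ x in Icc (T / 2) (4 * T), ENNReal.ofReal (SF T H r x) ≤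
      ENNReal.ofReal (C * T * Real.log T ^ 3 * H * Real.exp (-(r ^ 2 / 4)))

/-- CHB7 (DX1, AVG7, BOX, CON, LFTR, GAMC, ETR, TLS7, CEL, MOM6): few simple zeros within `2 lam`
happens rarely. -/
def CHB7Statement : Prop := RiemannHypothesis → ∀ ε : ℝ, 0 < ε → ∃ c : ℝ, 0 < c ∧ ∃ K : ℕ,
  ∃ T0 : ℝ, 10 < T0 ∧ ∀ T lam : ℝ, T0 ≤ T → Real.log (Real.log T) ^ K ≤ lam →
    lam ≤ Real.log T →
    volume {t : ℝ | T ≤ t ∧ t ≤ 2 * T ∧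
      (({γ : ℝ | |γ - t| < 2 * lam ∧ mz γ = 1}.ncard : ℕ) : ℝ) ≤ c * lam} ≤
      ENNReal.ofReal (ε * T)

/-- FIN7 (from CHB7): the theorem. -/
def CountStatement7 : Prop := RiemannHypothesis → ∀ ε : ℝ, 0 < ε → ∃ c : ℝ, 0 < c ∧ ∃ K : ℕ,
  ∃ T0 : ℝ, 10 < T0 ∧ ∀ T h : ℝ, T0 ≤ T → Real.log (Real.log T) ^ K ≤ h → h ≤ T →
    volume {t : ℝ | 0 ≤ t ∧ t ≤ T ∧
      (({γ : ℝ | t < γ ∧ γ < t + h ∧ zeroMult γ = 1}.ncard : ℕ) : ℝ) ≤ c * h} ≤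
      ENNReal.ofReal (ε * T)

end Pool.Agent.Lib.MP_6bc78b_nt.GP.G7
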