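import Pool.Agent.Lib.MP_6bc78b_nt.GP.H43.Defs10b
import Pool.Agent.Lib.MP_6bc78b_nt.GP.H91.Box
import Pool.Agent.Lib.MP_6bc78b_nt.GP.H61.Rgtb

/-! Project GP10 (MP_6bc78b_nt), row ERB: the mean of `S_E` for the window is small. -/

set_option autoImplicit false

open Complex Filter Topology MeasureTheory Set
open scoped ENNReal

namespace Pool.Agent.Lib.MP_6bc78b_nt.GP.H62E

open Pool.Agent.Lib.MP_6bc78b_nt.GP Pool.Agent.Lib.MP_6bc78b_nt.GP.G7
open Pool.Agent.Lib.MP_6bc78b_nt.GP.G10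

/-- Continuity and the trivial bound for `EE_B(z'(u))`. -/
theorem em_bd (h2 : ETRStatement) (A B : ℝ) {S : Finset ℕ} (β : ℕ → ℝ) (hS : ∀ m ∈ S, 1 ≤ m)
    {δ : ℝ} (hδ : 0 < δ) (hδ2 : δ ≤ 1 / 2) :
    Continuous (fun u : ℝ => EM A B S β (zp u δ)) ∧
      ∃ M : ℝ, 0 ≤ M ∧ ∀ u : ℝ, ‖EM A B S β (zp u δ)‖ ≤ M * Real.exp (2 * |u|) := by
  obtain ⟨hc, C, hC, hb⟩ := h2 A B
  have hcont : Continuous (fun u : ℝ => EE A B (zp u δ)) := hc δ hδ (by linarith)
  have e : ∀ u : ℝ, EM A B S β (zp u δ) =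
      ∑ m ∈ S, (β m : ℂ) * EE A B (zp (u + Real.log m) δ) := fun u => by
    unfold EM
    refine Finset.sum_congr rfl fun m hm => ?_
    rw [H61B.EE_shift A B u δ m (hS m hm)]
  constructor
  · simp only [e]
    refine continuous_finsetSum _ fun m _ => continuous_const.mul ?_
    exact hcont.comp (continuous_id.add continuous_const)
  · refine ⟨∑ m ∈ S, |β m| * (C * Real.exp (2 * |Real.log m|) / δ ^ 2),
      Finset.sum_nonneg fun m _ => by positivity, fun u => ?_⟩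
    rw [e, Finset.sum_mul]
    refine (norm_sum_le _ _).trans (Finset.sum_le_sum fun m _ => ?_)
    rw [norm_mul, Complex.norm_real, Real.norm_eq_abs, mul_assoc]
    refine mul_le_mul_of_nonneg_left ?_ (abs_nonneg _)
    refine (hb (u + Real.log m) δ hδ hδ2).trans ?_
    have h3 : Real.exp (2 * |u + Real.log m|) ≤
        Real.exp (2 * |Real.log m|) * Real.exp (2 * |u|) := by
      rw [← Real.exp_add]
      refine Real.exp_le_exp.2 ?_
      have := abs_add_le u (Real.log m)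
      linarith
    calc C * Real.exp (2 * |u + Real.log m|) / δ ^ 2 ≤
        C * (Real.exp (2 * |Real.log m|) * Real.exp (2 * |u|)) / δ ^ 2 := by gcongr
      _ = _ := by ring

/-- The density. -/
noncomputable def ig (A B δ : ℝ) (w : ℝ → ℝ) (S : Finset ℕ) (β : ℕ → ℝ) (u : ℝ) : ℂ :=
  ((w u * Real.exp (u / 2) : ℝ) : ℂ) * EM A B S β (zp u δ)

theorem ig_int (h2 : ETRStatement) (A B : ℝ) {S : Finset ℕ} (β : ℕ → ℝ) (hS : ∀ m ∈ S, 1 ≤ m)
    {δ H : ℝ} (hδ : 0 < δ) (hδ2 : δ ≤ 1 / 2) (hH : 0 < H) {w : ℝ → ℝ} (hw : Continuous w)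
    (hb : ∀ u, |w u| ≤ Real.exp (-(H ^ 2 * u ^ 2 / 2))) : Integrable (ig A B δ w S β) := by
  obtain ⟨hc, M, hM, hbd⟩ := em_bd h2 A B β hS hδ hδ2
  have hg := (H32.integrable_gauss_abs (H ^ 2 / 2) (by positivity)).const_mul M
  refine hg.mono' ?_ (Eventually.of_forall fun u => ?_)
  · have : Continuous (ig A B δ w S β) := by
      unfold ig
      exact (Complex.continuous_ofReal.comp (hw.mul (by fun_prop))).mul hc
    exact this.aestronglyMeasurable
  · unfold ig
    rw [norm_mul, Complex.norm_real, Real.norm_eq_abs, abs_mul, abs_of_pos (Real.exp_pos _)]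
    calc |w u| * Real.exp (u / 2) * ‖EM A B S β (zp u δ)‖ ≤
        Real.exp (-(H ^ 2 * u ^ 2 / 2)) * Real.exp (u / 2) * (M * Real.exp (2 * |u|)) :=
          mul_le_mul (mul_le_mul_of_nonneg_right (hb u) (Real.exp_pos _).le) (hbd u)
            (norm_nonneg _) (by positivity)
      _ = M * Real.exp (-(H ^ 2 * u ^ 2 / 2) + u / 2 + 2 * |u|) := by
          rw [Real.exp_add, Real.exp_add]
          ring
      _ ≤ M * Real.exp (-(H ^ 2 / 2 * u ^ 2) + 3 * |u|) := by
          refine mul_le_mul_of_nonneg_left (Real.exp_le_exp.2 ?_) hM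
          have h6 := le_abs_self u
          have h7 := abs_nonneg u
          have h8 : H ^ 2 / 2 * u ^ 2 = H ^ 2 * u ^ 2 / 2 := by ring
          rw [h8]
          linarith

theorem norm_e3 (u t : ℝ) : ‖Complex.exp (u * t * I)‖ = 1 := by
  rw [← Complex.ofReal_mul]
  exact Complex.norm_exp_ofReal_mul_I _

theorem ig_int_e {A B δ : ℝ} {w : ℝ → ℝ} {S : Finset ℕ} {β : ℕ → ℝ}
    (h : Integrable (ig A B δ w S β)) (t : ℝ) :
    Integrable (fun u : ℝ => ig A B δ w S β u * Complex.exp (u * t * I)) :=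
  h.mul_bdd (c := 1) (by fun_prop) (ae_of_all _ fun u => (norm_e3 u t).le)

theorem sb_eq (A B δ : ℝ) (w : ℝ → ℝ) (S : Finset ℕ) (β : ℕ → ℝ) (t : ℝ) :
    SB A B δ w S β t = ∫ u : ℝ, ig A B δ w S β u * Complex.exp (u * t * I) := rfl

theorem sb_cont {A B δ : ℝ} {w : ℝ → ℝ} {S : Finset ℕ} {β : ℕ → ℝ}
    (h : Integrable (ig A B δ w S β)) : Continuous (SB A B δ w S β) := by
  have e : SB A B δ w S β = fun t : ℝ => ∫ u : ℝ, ig A B δ w S β u * Complex.exp (u * t * I) := by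
    funext t
    exact sb_eq A B δ w S β t
  rw [e]
  refine continuous_of_dominated (bound := fun u => ‖ig A B δ w S β u‖)
    (fun t => (ig_int_e h t).aestronglyMeasurable) (fun t => ?_) h.norm
    (Eventually.of_forall fun u => ?_)
  · refine Eventually.of_forall fun u => ?_
    rw [norm_mul, norm_e3, mul_one]
  · fun_prop

/-- Linearity in the weight: a finite decomposition. -/
theorem sb_sum {A B δ : ℝ} {S : Finset ℕ} {β : ℕ → ℝ} {w w0 wt : ℝ → ℝ} {s : Finset ℕ}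
    {wk : ℕ → ℝ → ℝ} (h0 : Integrable (ig A B δ w0 S β)) (ht : Integrable (ig A B δ wt S β))
    (hk : ∀ k ∈ s, Integrable (ig A B δ (wk k) S β))
    (e : ∀ u, w u = w0 u + ∑ k ∈ s, wk k u + wt u) (t : ℝ) :
    SB A B δ w S β t = SB A B δ w0 S β t + ∑ k ∈ s, SB A B δ (wk k) S β t +
      SB A B δ wt S β t := by
  have i0 := ig_int_e h0 t
  have it := ig_int_e ht t
  have ik : Integrable (fun u : ℝ => ∑ k ∈ s, ig A B δ (wk k) S β u *
      Complex.exp (u * t * I)) := integrable_finsetSum _ fun k hk' => ig_int_e (hk k hk') t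
  simp only [sb_eq]
  have e1 : ∑ k ∈ s, ∫ u : ℝ, ig A B δ (wk k) S β u * Complex.exp (u * t * I) =
      ∫ u : ℝ, ∑ k ∈ s, ig A B δ (wk k) S β u * Complex.exp (u * t * I) :=
    (integral_finsetSum _ fun k hk' => ig_int_e (hk k hk') t).symm
  have e2 : ∫ u : ℝ, (ig A B δ w0 S β u * Complex.exp (u * t * I) +
      ∑ k ∈ s, ig A B δ (wk k) S β u * Complex.exp (u * t * I)) =
      (∫ u : ℝ, ig A B δ w0 S β u * Complex.exp (u * t * I)) +
        ∫ u : ℝ, ∑ k ∈ s, ig A B δ (wk k) S β u * Complex.exp (u * t * I) := integral_add i0 ik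
  have e3 : ∫ u : ℝ, ((ig A B δ w0 S β u * Complex.exp (u * t * I) +
      ∑ k ∈ s, ig A B δ (wk k) S β u * Complex.exp (u * t * I)) +
        ig A B δ wt S β u * Complex.exp (u * t * I)) =
      (∫ u : ℝ, (ig A B δ w0 S β u * Complex.exp (u * t * I) +
      ∑ k ∈ s, ig A B δ (wk k) S β u * Complex.exp (u * t * I))) +
        ∫ u : ℝ, ig A B δ wt S β u * Complex.exp (u * t * I) := integral_add (i0.add ik) it
  rw [e1, ← e2, ← e3]
  refine integral_congr_ae (ae_of_all _ fun u => ?_)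
  show ig A B δ w S β u * _ = _
  simp only [← Finset.sum_mul, ← add_mul]
  congr 1
  unfold ig
  rw [← Finset.sum_mul, ← add_mul, ← add_mul, ← Complex.ofReal_sum, ← Complex.ofReal_add,
    ← Complex.ofReal_add, ← Finset.sum_mul, ← add_mul, ← add_mul, e u]

/-- From a bound of the square. -/
theorem le_of_sq {X : ℝ≥0∞} {y : ℝ} (hy : 0 ≤ y) (h : X ^ 2 ≤ ENNReal.ofReal (y ^ 2)) :
    X ≤ ENNReal.ofReal y := by
  by_contra hcon
  push Not at hcon
  have h1 : ENNReal.ofReal y ^ 2 < X ^ 2 := ENNReal.pow_lt_pow_left (by norm_num) hcon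
  rw [← ENNReal.ofReal_pow hy] at h1
  exact absurd h (not_le.2 h1)

/-- Cauchy's inequality on `[T, 2T]`. -/
theorem cauchy {f : ℝ → ℂ} (hf : Continuous f) {T : ℝ} :
    (∫⁻ t in Icc T (2 * T), ENNReal.ofReal ‖f t‖) ^ 2 ≤
      ENNReal.ofReal T * ∫⁻ t : ℝ, ENNReal.ofReal (‖f t‖ ^ 2) := by
  have hm : AEMeasurable (fun t => ENNReal.ofReal ‖f t‖) (volume.restrict (Icc T (2 * T))) :=
    (ENNReal.measurable_ofReal.comp hf.norm.measurable).aemeasurable
  have h1 := ENNReal.lintegral_mul_le_Lp_mul_Lq (volume.restrict (Icc T (2 * T)))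
    Real.HolderConjugate.two_two (f := fun t => ENNReal.ofReal ‖f t‖) (g := fun _ => 1) hm
    aemeasurable_const
  simp only [Pi.mul_apply, mul_one, ENNReal.one_rpow, lintegral_const, one_mul,
    Measure.restrict_apply MeasurableSet.univ, univ_inter, Real.volume_Icc] at h1
  have e1 : (2 * T - T) = T := by ring
  rw [e1] at h1
  have h2 := pow_le_pow_left' h1 2
  refine h2.trans ?_
  rw [mul_pow, mul_comm]
  have e2 : ∀ x : ℝ≥0∞, (x ^ (1 / 2 : ℝ)) ^ 2 = x := fun x => by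
    rw [← ENNReal.rpow_natCast, ← ENNReal.rpow_mul]
    norm_num
  rw [e2, e2]
  refine mul_le_mul_right ?_ _
  refine (setLIntegral_le_lintegral _ _).trans (lintegral_mono fun t => ?_)
  show ENNReal.ofReal ‖f t‖ ^ (2 : ℝ) ≤ _
  rw [ENNReal.ofReal_rpow_of_nonneg (norm_nonneg _) (by norm_num)]
  refine (le_of_eq ?_)
  congr 1
  exact Real.rpow_natCast _ 2

/-- The mean of `S_E` from the energy of the density. -/
theorem mean (hP : PLCStatement) {A B δ : ℝ} {w : ℝ → ℝ} {S : Finset ℕ} {β : ℕ → ℝ}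
    (h : Integrable (ig A B δ w S β)) {T : ℝ} (hT : 0 < T) :
    (∫⁻ t in Icc T (2 * T), ENNReal.ofReal ‖SB A B δ w S β t‖) ^ 2 ≤
      ENNReal.ofReal (T * (2 * Real.pi)) *
        ∫⁻ u : ℝ, ENNReal.ofReal (w u ^ 2 * (‖EM A B S β (zp u δ)‖ ^ 2 * Real.exp u)) := by
  refine (cauchy (sb_cont h)).trans ?_
  rw [ENNReal.ofReal_mul hT.le, mul_assoc]
  refine mul_le_mul_right ?_ _
  have h1 := hP _ h
  have e : ∀ t : ℝ, SB A B δ w S β t =
      ∫ u : ℝ, ig A B δ w S β u * Complex.exp (t * u * I) := fun t => by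
    rw [sb_eq]
    refine integral_congr_ae (ae_of_all _ fun u => ?_)
    show _ * _ = _ * _
    rw [mul_comm (u : ℂ) (t : ℂ)]
  simp only [e]
  refine h1.trans (mul_le_mul_right (lintegral_mono fun u => ?_) _)
  refine ENNReal.ofReal_le_ofReal (le_of_eq ?_)
  unfold ig
  rw [norm_mul, mul_pow, Complex.norm_real, Real.norm_eq_abs, sq_abs, mul_pow,
    ← Real.exp_nat_mul]
  have h3 : ((2 : ℕ) : ℝ) * (u / 2) = u := by
    push_cast
    ring
  rw [h3]
  ring

/-- The spline on the low frequencies. -/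
theorem sinc_bd (x : ℝ) : (Real.sinc x ^ 8) ^ 2 * (1 + 256 * x ^ 2) ≤ 257 := by
  have h1 : |Real.sinc x| ≤ 1 := Real.abs_sinc_le_one x
  have h2 : (Real.sinc x) ^ 2 ≤ 1 := by
    rw [← sq_abs]
    exact pow_le_one₀ (abs_nonneg _) h1
  have h3 : (Real.sinc x) ^ 2 * x ^ 2 ≤ 1 := by
    by_cases hx : x = 0
    · rw [hx]; norm_num
    · rw [Real.sinc_of_ne_zero hx, div_pow, div_mul_cancel₀ _ (pow_ne_zero 2 hx)]
      exact Real.sin_sq_le_one x
  have h4 : (Real.sinc x ^ 8) ^ 2 ≤ Real.sinc x ^ 2 := by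
    have : (Real.sinc x ^ 8) ^ 2 = Real.sinc x ^ 2 * (Real.sinc x ^ 2) ^ 7 := by ring
    rw [this]
    exact mul_le_of_le_one_right (sq_nonneg _) (pow_le_one₀ (sq_nonneg _) h2)
  calc (Real.sinc x ^ 8) ^ 2 * (1 + 256 * x ^ 2) ≤ Real.sinc x ^ 2 * (1 + 256 * x ^ 2) :=
        mul_le_mul_of_nonneg_right h4 (by positivity)
    _ = Real.sinc x ^ 2 + 256 * (Real.sinc x ^ 2 * x ^ 2) := by ring
    _ ≤ 257 := by linarith

theorem wd_abs (lam H u : ℝ) : |wd lam H u| ≤ Real.exp (-(H ^ 2 * u ^ 2 / 2)) := by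
  unfold wd
  rw [abs_mul, abs_of_pos (Real.exp_pos _), abs_pow]
  exact mul_le_of_le_one_left (Real.exp_pos _).le
    (pow_le_one₀ (abs_nonneg _) (Real.abs_sinc_le_one _))

theorem wd_cont (lam H : ℝ) : Continuous (wd lam H) := by
  unfold wd
  exact ((Real.continuous_sinc.comp (by fun_prop)).pow 8).mul (by fun_prop)

theorem wd_sq (lam H u : ℝ) : wd lam H u ^ 2 ≤ 257 / (1 + lam ^ 2 * u ^ 2) := by
  have hp : 0 < 1 + lam ^ 2 * u ^ 2 := by positivity
  rw [le_div_iff₀ hp]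
  unfold wd
  have h1 := sinc_bd (lam / 16 * u)
  have h2 : 1 + 256 * (lam / 16 * u) ^ 2 = 1 + lam ^ 2 * u ^ 2 := by ring
  rw [h2] at h1
  refine le_trans ?_ h1
  rw [mul_pow]
  have h3 : Real.exp (-(H ^ 2 * u ^ 2 / 2)) ^ 2 ≤ 1 := by
    refine pow_le_one₀ (Real.exp_pos _).le (Real.exp_le_one_iff.2 ?_)
    have : 0 ≤ H ^ 2 * u ^ 2 / 2 := by positivity
    linarith
  refine mul_le_mul_of_nonneg_right ?_ hp.le
  exact mul_le_of_le_one_right (by positivity) h3

/-! ### The numbers of the scales -/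

theorem pk_ge {w : ℝ} (hw : 2 ≤ w) (k : ℕ) : 2 * 2 ^ k ≤ pk w k := by
  unfold pk
  have h1 := Real.add_one_le_exp (w * 2 ^ k)
  have h2 : 2 * (2 : ℝ) ^ k ≤ w * 2 ^ k := mul_le_mul_of_nonneg_right hw (by positivity)
  linarith

theorem pk_ge5 {w : ℝ} (hw : 2 ≤ w) (k : ℕ) : 5 ≤ pk w k := by
  unfold pk
  have h0 : (1 : ℝ) ≤ 2 ^ k := one_le_pow₀ (by norm_num)
  have h2 : 2 ≤ w * 2 ^ k := by nlinarith
  have h1 := Real.quadratic_le_exp_of_nonneg (by linarith : 0 ≤ w * 2 ^ k)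
  nlinarith

theorem pk_mono {w : ℝ} (hw : 2 ≤ w) {j k : ℕ} (h : j ≤ k) : pk w j ≤ pk w k := by
  unfold pk
  refine Real.exp_le_exp.2 (mul_le_mul_of_nonneg_left ?_ (by linarith))
  exact pow_le_pow_right₀ (by norm_num) h

theorem jk_ge {w : ℝ} (hw : 2 ≤ w) (k : ℕ) : 1 ≤ jk w k := by
  cases k with
  | zero => exact le_rfl
  | succ k =>
    show 1 ≤ pk w k / 2
    have := pk_ge5 hw k
    linarith

theorem jk_two {w : ℝ} (hw : 2 ≤ w) (k : ℕ) : 2 * jk w k ≤ jk w (k + 1) := by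
  cases k with
  | zero =>
    show 2 * 1 ≤ pk w 0 / 2
    have := pk_ge5 hw 0
    linarith
  | succ k =>
    show 2 * (pk w k / 2) ≤ pk w (k + 1) / 2
    rw [pk_succ]
    have := pk_ge5 hw k
    nlinarith

theorem num {w : ℝ} (hw : 2 ≤ w) (K : ℕ) :
    ∑ k ∈ Finset.range (K + 1), 2 ^ k * pk w k / jk w k ^ 6 ≤ pk w 0 + 10 - 10 * (1 / 8) ^ K := by
  induction K with
  | zero =>
    rw [zero_add, Finset.sum_range_one]
    show 2 ^ 0 * pk w 0 / 1 ^ 6 ≤ _
    norm_num
  | succ K ih =>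
    rw [Finset.sum_range_succ]
    have h1 : 2 ^ (K + 1) * pk w (K + 1) / jk w (K + 1) ^ 6 ≤ 8 * (1 / 8) ^ K := by
      show 2 ^ (K + 1) * pk w (K + 1) / (pk w K / 2) ^ 6 ≤ _
      rw [pk_succ]
      have h2 := pk_ge hw K
      have h3 := pk_pos w K
      have h4 : 2 ^ (K + 1) * pk w K ^ 2 / (pk w K / 2) ^ 6 = 128 * 2 ^ K / pk w K ^ 4 := by
        rw [pow_succ]
        field_simp
        norm_num
      rw [h4, div_le_iff₀ (by positivity)]
      have h5 : (2 * 2 ^ K) ^ 4 ≤ pk w K ^ 4 := pow_le_pow_left₀ (by positivity) h2 4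
      have h6 : 8 * (1 / 8 : ℝ) ^ K * (2 * 2 ^ K) ^ 4 = 128 * 2 ^ K := by
        have h7 : (1 / 8 : ℝ) ^ K * (2 ^ K) ^ 4 = 2 ^ K := by
          rw [← pow_mul, mul_comm K 4, pow_mul, ← mul_pow]
          norm_num
        calc 8 * (1 / 8 : ℝ) ^ K * (2 * 2 ^ K) ^ 4 = 128 * ((1 / 8 : ℝ) ^ K * (2 ^ K) ^ 4) := by ring
          _ = _ := by rw [h7]
      rw [← h6]
      exact mul_le_mul_of_nonneg_left h5 (by positivity)
    have h8 : 10 * (1 / 8 : ℝ) ^ (K + 1) = 10 / 8 * (1 / 8) ^ K := by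
      rw [pow_succ]
      ring
    have h9 : (0 : ℝ) < (1 / 8) ^ K := by positivity
    rw [h8]
    linarith

/-- `C (log log T) ^ n ≤ η log T`. -/
theorem small (C η : ℝ) (hη : 0 < η) (n : ℕ) : ∃ T0 : ℝ, 10 < T0 ∧ ∀ T : ℝ, T0 ≤ T →
    C * Real.log (Real.log T) ^ n ≤ η * Real.log T := by
  have hlog : Tendsto Real.log atTop atTop := Real.tendsto_log_atTop
  have h1 := ((Real.isLittleO_pow_log_id_atTop (n := n)).comp_tendsto hlog).bound
    (c := η / (|C| + 1)) (by positivity)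
  obtain ⟨T1, h1⟩ := eventually_atTop.1 h1
  refine ⟨max T1 11, lt_of_lt_of_le (by norm_num) (le_max_right _ _), fun T hT => ?_⟩
  have h2 := h1 T ((le_max_left _ _).trans hT)
  have hT11 : 11 ≤ T := (le_max_right _ _).trans hT
  have hL : 0 < Real.log T := Real.log_pos (by linarith)
  simp only [Function.comp_apply, id, Real.norm_eq_abs] at h2
  rw [abs_of_pos hL] at h2
  have h3 : C * Real.log (Real.log T) ^ n ≤ |C| * |Real.log (Real.log T) ^ n| := by
    rw [← abs_mul]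
    exact le_abs_self _
  calc C * Real.log (Real.log T) ^ n ≤ |C| * |Real.log (Real.log T) ^ n| := h3
    _ ≤ |C| * (η / (|C| + 1) * Real.log T) := mul_le_mul_of_nonneg_left h2 (abs_nonneg _)
    _ = (|C| / (|C| + 1)) * (η * Real.log T) := by ring
    _ ≤ 1 * (η * Real.log T) := by
        refine mul_le_mul_of_nonneg_right ?_ (by positivity)
        rw [div_le_one (by positivity)]
        linarith
    _ = _ := one_mul _

/-- **ERB.** -/
theorem erb (h1 : AVGBStatement) (h2 : SPLBStatement) (h3 : PIECEBStatement) (hP : PLCStatement)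
    (hE : ETRStatement) : ERBStatement := by
  intro hRH A B D hD ε hε
  obtain ⟨C, hC, havg⟩ := h1 hRH A B D hD
  obtain ⟨ψ, ⟨hψc, hψ01, hψ1, hψ0⟩, Cs, hCs, hspl⟩ := h2
  obtain ⟨Cp, hCp, hpc⟩ := h3
  have hpi := Real.pi_pos
  obtain ⟨ε1, hε1⟩ : ∃ ε1 : ℝ, ε1 = (ε / 4) ^ 2 / (2 * Real.pi * 257) := ⟨_, rfl⟩
  have hε10 : 0 < ε1 := by rw [hε1]; positivity
  obtain ⟨ν, lam₁, hν, hν1, hlam₁, havg⟩ := havg ε1 hε10
  refine ⟨ν, hν, hν1, fun w hw => ?_⟩
  obtain ⟨a, ha⟩ : ∃ a : ℝ, a = Real.sqrt (Cp * C) := ⟨_, rfl⟩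
  have ha0 : 0 < a := by rw [ha]; positivity
  have ha2 : a ^ 2 = Cp * C := by rw [ha]; exact Real.sq_sqrt (by positivity)
  have hp0 : 0 < pk w 0 := pk_pos w 0
  obtain ⟨Z, hZ⟩ : ∃ Z : ℝ, Z = 4 * (a * Cs * (pk w 0 + 10)) / ε := ⟨_, rfl⟩
  refine ⟨max lam₁ (max Z 1), hlam₁.trans (le_max_left _ _), fun lam hlam => ?_⟩
  have hl1 : lam₁ ≤ lam := (le_max_left _ _).trans hlam
  have hl2 : Z ≤ lam := ((le_max_left _ _).trans (le_max_right _ _)).trans hlam
  have hl3 : 1 ≤ lam := ((le_max_right _ _).trans (le_max_right _ _)).trans hlam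
  have hlam0 : 0 < lam := by linarith
  -- the pieces
  have hZ6 : a * Cs * (pk w 0 + 10) / lam ^ 6 ≤ ε / 4 := by
    rw [div_le_iff₀ (by positivity)]
    rw [hZ, div_le_iff₀ hε] at hl2
    have h4 : lam ≤ lam ^ 6 := by
      calc lam = lam ^ 1 := (pow_one lam).symm
        _ ≤ lam ^ 6 := pow_le_pow_right₀ hl3 (by norm_num)
    have h5 : ε / 4 * lam ≤ ε / 4 * lam ^ 6 := mul_le_mul_of_nonneg_left h4 (by positivity)
    linarith
  obtain ⟨T₁, hT₁, havg⟩ := havg lam hl1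
  obtain ⟨T₂, hT₂, hsm⟩ := small (1200 ^ 4) 1 one_pos 4
  have hlog : Tendsto Real.log atTop atTop := Real.tendsto_log_atTop
  obtain ⟨T₃, h5⟩ := eventually_atTop.1 ((hlog.comp hlog).eventually_ge_atTop 1)
  obtain ⟨T₄, h6⟩ := eventually_atTop.1
    (hlog.eventually_ge_atTop (2 * Real.pi * C * 16 / ε ^ 2 + 1))
  refine ⟨max T₁ (max T₂ (max T₃ T₄)), lt_max_of_lt_left hT₁,
    fun T K S β S' β' hT hK1 hK2 hS => ?_⟩
  have hTT₁ : T₁ ≤ T := (le_max_left _ _).trans hT
  have hr1 := (le_max_right _ _).trans hT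
  have hTT₂ : T₂ ≤ T := (le_max_left _ _).trans hr1
  have hr2 := (le_max_right _ _).trans hr1
  have hTT₃ : T₃ ≤ T := (le_max_left _ _).trans hr2
  have hTT₄ : T₄ ≤ T := (le_max_right _ _).trans hr2
  clear hr1 hr2 hT
  have hT10 : 10 < T := by linarith
  have hT0 : 0 < T := by linarith
  have hll : 1 ≤ Real.log (Real.log T) := h5 T hTT₃
  have hL : 2 * Real.pi * C * 16 / ε ^ 2 + 1 ≤ Real.log T := h6 T hTT₄
  have hsmT := hsm T hTT₂
  obtain ⟨δ, hδ, hlow, hband, htail⟩ := havg T w K S β S' β' hTT₁ hw hS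
  refine ⟨δ, hδ, ?_⟩
  have hδ0 : 0 < δ := lt_of_lt_of_le (by positivity) hδ.1
  have hδh : δ ≤ 1 / 2 := by
    refine hδ.2.trans ?_
    rw [div_le_div_iff₀ hT0 (by norm_num)]
    linarith
  obtain ⟨l, hld⟩ : ∃ l : ℝ, l = Real.log (Real.log T) := ⟨_, rfl⟩
  rw [← hld] at hll hK1 hK2 htail hsmT
  obtain ⟨L, hLd⟩ : ∃ L : ℝ, L = Real.log T := ⟨_, rfl⟩
  rw [← hLd] at hL hlow hband hsmT ⊢
  have hLd' : Real.log T = L := hLd.symm
  have hL1 : 1 ≤ L := by
    have : 0 < 2 * Real.pi * C * 16 / ε ^ 2 := by positivity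
    linarith
  have hL0 : 0 < L := by linarith
  -- the width of the Gaussian
  obtain ⟨H, hHd⟩ : ∃ H : ℝ, H = HH T lam := ⟨_, rfl⟩
  have hH0 : 0 < H := by
    rw [hHd]
    unfold HH
    rw [← hld]
    positivity
  have hHl : H ≤ lam := by
    rw [hHd]
    unfold HH
    rw [← hld]
    refine div_le_self hlam0.le ?_
    have := Real.one_le_sqrt.2 hll
    linarith
  rw [← hHd] at htail ⊢
  -- the scales
  have hsc : ∀ k ≤ K, Real.exp (pk w (k + 1)) ≤ T := by
    intro k hk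
    rw [← Real.le_log_iff_exp_le hT0]
    have k1 : pk w (k + 1) ≤ pk w (K + 1) := pk_mono hw (by omega)
    have k2 : pk w (K + 1) ≤ ((1200 * l) ^ 2) ^ 2 := by
      rw [pk_succ]
      exact pow_le_pow_left₀ (pk_pos w K).le hK2 2
    have k3 : ((1200 * l) ^ 2) ^ 2 = 1200 ^ 4 * l ^ 4 := by ring
    rw [k3] at k2
    rw [hLd']
    linarith
  -- the weights
  obtain ⟨w0, hw0⟩ : ∃ f : ℝ → ℝ, f = fun u => wd lam H u * ψ (u / jk w 0) := ⟨_, rfl⟩
  obtain ⟨wk, hwk⟩ : ∃ f : ℕ → ℝ → ℝ, f = fun k u => wd lam H u *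
    (ψ (u / jk w (k + 1)) - ψ (u / jk w k)) := ⟨_, rfl⟩
  obtain ⟨wt, hwt⟩ : ∃ f : ℝ → ℝ, f = fun u => wd lam H u * (1 - ψ (u / jk w (K + 1))) :=
    ⟨_, rfl⟩
  have hj : ∀ k : ℕ, Continuous (fun u : ℝ => ψ (u / jk w k)) := fun k =>
    hψc.comp (continuous_id.div_const _)
  have hab : ∀ (f : ℝ → ℝ) (g : ℝ → ℝ), (∀ u, |g u| ≤ 1) → (f = fun u => wd lam H u * g u) →
      ∀ u, |f u| ≤ Real.exp (-(H ^ 2 * u ^ 2 / 2)) := by
    intro f g hg hf u
    rw [hf]
    show |wd lam H u * g u| ≤ _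
    rw [abs_mul]
    exact (mul_le_of_le_one_right (abs_nonneg _) (hg u)).trans (wd_abs lam H u)
  have hS1 : ∀ m ∈ S, 1 ≤ m := hS.mol.one_le
  have i0 : Integrable (ig A B δ w0 S β) := by
    refine ig_int hE A B β hS1 hδ0 hδh hH0 ?_ (hab w0 (fun u => ψ (u / jk w 0)) (fun u => ?_) hw0)
    · rw [hw0]
      exact (wd_cont lam H).mul (hj 0)
    · rw [abs_le]
      have := hψ01 (u / jk w 0)
      constructor <;> linarith [this.1, this.2]
  have ik : ∀ k, Integrable (ig A B δ (wk k) S β) := by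
    intro k
    refine ig_int hE A B β hS1 hδ0 hδh hH0 ?_
      (hab (wk k) (fun u => ψ (u / jk w (k + 1)) - ψ (u / jk w k)) (fun u => ?_) (by rw [hwk]))
    · rw [hwk]
      exact (wd_cont lam H).mul ((hj (k + 1)).sub (hj k))
    · rw [abs_le]
      have k1 := hψ01 (u / jk w (k + 1))
      have k2 := hψ01 (u / jk w k)
      constructor <;> linarith [k1.1, k1.2, k2.1, k2.2]
  have it : Integrable (ig A B δ wt S β) := by
    refine ig_int hE A B β hS1 hδ0 hδh hH0 ?_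
      (hab wt (fun u => 1 - ψ (u / jk w (K + 1))) (fun u => ?_) hwt)
    · rw [hwt]
      exact (wd_cont lam H).mul (continuous_const.sub (hj (K + 1)))
    · rw [abs_le]
      have k1 := hψ01 (u / jk w (K + 1))
      constructor <;> linarith [k1.1, k1.2]
  have hdec := sb_sum (w := wd lam H) (s := Finset.range (K + 1)) i0 it (fun k _ => ik k)
    (fun u => by
      rw [hw0, hwk, hwt]
      show wd lam H u = wd lam H u * ψ (u / jk w 0) +
        ∑ k ∈ Finset.range (K + 1), wd lam H u * (ψ (u / jk w (k + 1)) - ψ (u / jk w k)) +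
          wd lam H u * (1 - ψ (u / jk w (K + 1)))
      rw [← Finset.mul_sum, Finset.sum_range_sub (fun k => ψ (u / jk w k))]
      ring)
  -- the low frequencies
  have X0 : ∫⁻ t in Icc T (2 * T), ENNReal.ofReal ‖SB A B δ w0 S β t‖ ≤
      ENNReal.ofReal (ε / 4 * T * L ^ 2) := by
    refine le_of_sq (by positivity) ((mean hP i0 hT0).trans ?_)
    have k1 : ∫⁻ u : ℝ, ENNReal.ofReal (w0 u ^ 2 * (‖EM A B S β (zp u δ)‖ ^ 2 * Real.exp u)) ≤
        ENNReal.ofReal 257 * ENNReal.ofReal (ε1 * T * L ^ 4) := by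
      refine le_trans ?_ (mul_le_mul_right hlow (ENNReal.ofReal 257))
      rw [← lintegral_const_mul' _ _ ENNReal.ofReal_ne_top, ← lintegral_indicator measurableSet_Icc]
      refine lintegral_mono fun u => ?_
      by_cases hu : u ∈ Icc (-1 : ℝ) 1
      · rw [indicator_of_mem hu, ← ENNReal.ofReal_mul (by norm_num)]
        refine ENNReal.ofReal_le_ofReal ?_
        have k2 : w0 u ^ 2 ≤ 257 / (1 + lam ^ 2 * u ^ 2) := by
          rw [hw0]
          show (wd lam H u * ψ (u / jk w 0)) ^ 2 ≤ _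
          rw [mul_pow]
          have k3 := hψ01 (u / jk w 0)
          exact (mul_le_of_le_one_right (sq_nonneg _) (pow_le_one₀ k3.1 k3.2)).trans
            (wd_sq lam H u)
        calc w0 u ^ 2 * (‖EM A B S β (zp u δ)‖ ^ 2 * Real.exp u) ≤
            257 / (1 + lam ^ 2 * u ^ 2) * (‖EM A B S β (zp u δ)‖ ^ 2 * Real.exp u) :=
              mul_le_mul_of_nonneg_right k2 (by positivity)
          _ = _ := by ring
      · have k2 : w0 u = 0 := by
          rw [hw0]
          show wd lam H u * ψ (u / 1) = 0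
          rw [div_one, hψ0 u (by
            by_contra hcon
            push Not at hcon
            exact hu ⟨by linarith [(abs_lt.1 hcon).1], by linarith [(abs_lt.1 hcon).2]⟩), mul_zero]
        rw [k2, indicator_of_notMem hu]
        simp
    refine (mul_le_mul_right k1 _).trans (le_of_eq ?_)
    rw [← ENNReal.ofReal_mul (by norm_num), ← ENNReal.ofReal_mul (by positivity)]
    congr 1
    rw [hε1]
    field_simp
  -- the pieces
  have Xk : ∀ k ∈ Finset.range (K + 1),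
      ∫⁻ t in Icc T (2 * T), ENNReal.ofReal ‖SB A B δ (wk k) S β t‖ ≤
        ENNReal.ofReal (a * Cs / lam ^ 6 * (T * L ^ 2) * (2 ^ k * pk w k / jk w k ^ 6)) := by
    intro k hk
    have hkK : k ≤ K := Nat.lt_succ_iff.1 (Finset.mem_range.1 hk)
    have hjk := jk_ge hw k
    have hjk0 : 0 < jk w k := by linarith
    have hpk := pk_pos w k
    refine le_of_sq (by positivity) ?_
    have k1 := hpc A B T δ w (Cs / (lam ^ 6 * jk w k ^ 6)) _ ν K k S β S' β' (wk k) hT10 hδ0 hδh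
      hw hkK (hsc k hkK) hS (by
        have := hspl lam H (jk w k) (jk w (k + 1)) hl3 hH0 hHl hjk (jk_two hw k)
        rw [hwk]
        exact this) (fun u hu => by
        rw [hwk]
        show wd lam H u * (ψ (u / jk w (k + 1)) - ψ (u / jk w k)) = 0
        have h7 : jk w (k + 1) = pk w k / 2 := rfl
        have h8 : 1 ≤ |u / jk w (k + 1)| := by
          have h10 : (0 : ℝ) < jk w (k + 1) := by rw [h7]; positivity
          rw [abs_div, abs_of_pos h10, one_le_div h10, h7]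
          exact hu.le
        have h9 : 1 ≤ |u / jk w k| := by
          rw [abs_div, abs_of_pos hjk0, one_le_div hjk0]
          have := jk_two hw k
          rw [h7] at this
          linarith
        rw [hψ0 _ h8, hψ0 _ h9, sub_zero, mul_zero])
    refine k1.trans ((mul_le_mul_right (hband k hkK) _).trans ?_)
    rw [← ENNReal.ofReal_mul (by positivity)]
    refine ENNReal.ofReal_le_ofReal ?_
    have k2 : (a * Cs / lam ^ 6 * (T * L ^ 2) * (2 ^ k * pk w k / jk w k ^ 6)) ^ 2 =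
        a ^ 2 * (Cs / (lam ^ 6 * jk w k ^ 6)) ^ 2 * T * (2 ^ k * (2 ^ k * pk w k ^ 2)) * T *
          L ^ 4 := by
      field_simp
    rw [k2, ha2, pk_succ]
    have k3 : (2 : ℝ) ^ k * pk w k ^ 2 ≤ 2 ^ k * (2 ^ k * pk w k ^ 2) := by
      have : (1 : ℝ) ≤ 2 ^ k := one_le_pow₀ (by norm_num)
      exact mul_le_mul_of_nonneg_left (le_mul_of_one_le_left (by positivity) this) (by positivity)
    calc Cp * (Cs / (lam ^ 6 * jk w k ^ 6)) ^ 2 * T * (C * 2 ^ k * pk w k ^ 2 * T * L ^ 4) =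
        Cp * C * (Cs / (lam ^ 6 * jk w k ^ 6)) ^ 2 * T * (2 ^ k * pk w k ^ 2) * T * L ^ 4 := by
          ring
      _ ≤ _ := by
          refine mul_le_mul_of_nonneg_right (mul_le_mul_of_nonneg_right
            (mul_le_mul_of_nonneg_left k3 (by positivity)) hT0.le) (by positivity)
  -- the tail
  have Xt : ∫⁻ t in Icc T (2 * T), ENNReal.ofReal ‖SB A B δ wt S β t‖ ≤
      ENNReal.ofReal (ε / 4 * T * L ^ 2) := by
    refine le_of_sq (by positivity) ((mean hP it hT0).trans ?_)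
    have hms : MeasurableSet {u : ℝ | 300 * l ≤ |u|} :=
      measurableSet_le measurable_const measurable_id.abs
    have k1 : ∫⁻ u : ℝ, ENNReal.ofReal (wt u ^ 2 * (‖EM A B S β (zp u δ)‖ ^ 2 * Real.exp u)) ≤
        ENNReal.ofReal (C * T) := by
      refine le_trans ?_ htail
      rw [← lintegral_indicator hms]
      refine lintegral_mono fun u => ?_
      by_cases hu : 300 * l ≤ |u|
      · rw [indicator_of_mem (show u ∈ {u : ℝ | 300 * l ≤ |u|} from hu)]
        refine ENNReal.ofReal_le_ofReal ?_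
        have k2 : wt u ^ 2 ≤ Real.exp (-(H ^ 2 * u ^ 2)) := by
          rw [hwt]
          show (wd lam H u * (1 - ψ (u / jk w (K + 1)))) ^ 2 ≤ _
          rw [mul_pow]
          have k3 := hψ01 (u / jk w (K + 1))
          refine (mul_le_of_le_one_right (sq_nonneg _)
            (pow_le_one₀ (by linarith [k3.2]) (by linarith [k3.1]))).trans ?_
          rw [← sq_abs]
          refine (pow_le_pow_left₀ (abs_nonneg _) (wd_abs lam H u) 2).trans (le_of_eq ?_)
          rw [← Real.exp_nat_mul]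
          congr 1
          push_cast
          ring
        calc wt u ^ 2 * (‖EM A B S β (zp u δ)‖ ^ 2 * Real.exp u) ≤
            Real.exp (-(H ^ 2 * u ^ 2)) * (‖EM A B S β (zp u δ)‖ ^ 2 * Real.exp u) :=
              mul_le_mul_of_nonneg_right k2 (by positivity)
          _ = _ := by
              rw [Real.exp_add]
              ring
      · have k2 : wt u = 0 := by
          rw [hwt]
          show wd lam H u * (1 - ψ (u / (pk w K / 2))) = 0
          push Not at hu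
          rw [hψ1 _ (by
            have hp := pk_pos w K
            rw [abs_div, abs_of_pos (by positivity : 0 < pk w K / 2), div_le_iff₀ (by positivity)]
            linarith), sub_self, mul_zero]
        rw [k2, indicator_of_notMem (show u ∉ {u : ℝ | 300 * l ≤ |u|} from hu)]
        simp
    refine (mul_le_mul_right k1 _).trans ?_
    rw [← ENNReal.ofReal_mul (by positivity)]
    refine ENNReal.ofReal_le_ofReal ?_
    have k4 : 2 * Real.pi * C ≤ (ε / 4) ^ 2 * L ^ 4 := by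
      have k5 : 2 * Real.pi * C * 16 / ε ^ 2 ≤ L := by linarith
      rw [div_le_iff₀ (by positivity)] at k5
      have k6 : L ≤ L ^ 4 := by
        calc L = L ^ 1 := (pow_one L).symm
          _ ≤ L ^ 4 := pow_le_pow_right₀ hL1 (by norm_num)
      have k7 : ε ^ 2 * L ≤ ε ^ 2 * L ^ 4 := mul_le_mul_of_nonneg_left k6 (by positivity)
      have k8 : (ε / 4) ^ 2 * L ^ 4 = ε ^ 2 * L ^ 4 / 16 := by ring
      rw [k8, le_div_iff₀ (by norm_num)]
      linarith
    calc T * (2 * Real.pi) * (C * T) = (2 * Real.pi * C) * T ^ 2 := by ring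
      _ ≤ (ε / 4) ^ 2 * L ^ 4 * T ^ 2 := mul_le_mul_of_nonneg_right k4 (by positivity)
      _ = _ := by ring
  -- the sum
  have c0 : Measurable fun t => ENNReal.ofReal ‖SB A B δ w0 S β t‖ :=
    ENNReal.measurable_ofReal.comp (sb_cont i0).norm.measurable
  have ck : ∀ k, Measurable fun t => ENNReal.ofReal ‖SB A B δ (wk k) S β t‖ := fun k =>
    ENNReal.measurable_ofReal.comp (sb_cont (ik k)).norm.measurable
  have hsum : ∫⁻ t in Icc T (2 * T), ENNReal.ofReal ‖SB A B δ (wd lam H) S β t‖ ≤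
      (∫⁻ t in Icc T (2 * T), ENNReal.ofReal ‖SB A B δ w0 S β t‖) +
        (∑ k ∈ Finset.range (K + 1), ∫⁻ t in Icc T (2 * T),
          ENNReal.ofReal ‖SB A B δ (wk k) S β t‖) +
        ∫⁻ t in Icc T (2 * T), ENNReal.ofReal ‖SB A B δ wt S β t‖ := by
    have cs : Measurable fun t => ∑ k ∈ Finset.range (K + 1),
        ENNReal.ofReal ‖SB A B δ (wk k) S β t‖ := Finset.measurable_fun_sum _ fun k _ => ck k
    have cA : Measurable fun t => ENNReal.ofReal ‖SB A B δ w0 S β t‖ +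
        ∑ k ∈ Finset.range (K + 1), ENNReal.ofReal ‖SB A B δ (wk k) S β t‖ := c0.add cs
    rw [← lintegral_finsetSum _ fun k _ => ck k, ← lintegral_add_left c0,
      ← lintegral_add_left cA]
    refine lintegral_mono fun t => ?_
    show ENNReal.ofReal ‖SB A B δ (wd lam H) S β t‖ ≤ ENNReal.ofReal ‖SB A B δ w0 S β t‖ +
      ∑ k ∈ Finset.range (K + 1), ENNReal.ofReal ‖SB A B δ (wk k) S β t‖ +
        ENNReal.ofReal ‖SB A B δ wt S β t‖
    rw [hdec t, ← ENNReal.ofReal_sum_of_nonneg fun k _ => norm_nonneg _,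
      ← ENNReal.ofReal_add (norm_nonneg _) (Finset.sum_nonneg fun k _ => norm_nonneg _),
      ← ENNReal.ofReal_add (add_nonneg (norm_nonneg _)
        (Finset.sum_nonneg fun k _ => norm_nonneg _)) (norm_nonneg _)]
    refine ENNReal.ofReal_le_ofReal ((norm_add_le _ _).trans (add_le_add_left ?_ _))
    exact (norm_add_le _ _).trans (add_le_add_right (norm_sum_le _ _) _)
  refine hsum.trans ((add_le_add (add_le_add X0 (Finset.sum_le_sum Xk)) Xt).trans ?_)
  have hpos : ∀ k ∈ Finset.range (K + 1),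
      0 ≤ a * Cs / lam ^ 6 * (T * L ^ 2) * (2 ^ k * pk w k / jk w k ^ 6) := fun k _ => by
    have := jk_ge hw k
    have hpk := pk_pos w k
    positivity
  rw [← ENNReal.ofReal_sum_of_nonneg hpos, ← ENNReal.ofReal_add (by positivity)
    (Finset.sum_nonneg hpos), ← ENNReal.ofReal_add (add_nonneg (by positivity)
      (Finset.sum_nonneg hpos)) (by positivity)]
  refine ENNReal.ofReal_le_ofReal ?_
  rw [← Finset.mul_sum]
  have k1 : a * Cs / lam ^ 6 * (T * L ^ 2) *
      ∑ k ∈ Finset.range (K + 1), 2 ^ k * pk w k / jk w k ^ 6 ≤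
      a * Cs / lam ^ 6 * (T * L ^ 2) * (pk w 0 + 10) := by
    refine mul_le_mul_of_nonneg_left ?_ (by positivity)
    have := num hw K
    have h9 : (0 : ℝ) < (1 / 8) ^ K := by positivity
    linarith
  have k2 : a * Cs / lam ^ 6 * (T * L ^ 2) * (pk w 0 + 10) =
      a * Cs * (pk w 0 + 10) / lam ^ 6 * (T * L ^ 2) := by ring
  have k3 : a * Cs * (pk w 0 + 10) / lam ^ 6 * (T * L ^ 2) ≤ ε / 4 * (T * L ^ 2) :=
    mul_le_mul_of_nonneg_right hZ6 (by positivity)
  have k4 : 0 < ε * (T * L ^ 2) := by positivity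
  have k5 : ε / 4 * T * L ^ 2 = ε / 4 * (T * L ^ 2) := by ring
  have k6 : ε * T * L ^ 2 = ε * (T * L ^ 2) := by ring
  rw [k5, k6]
  linarith

end Pool.Agent.Lib.MP_6bc78b_nt.GP.H62E
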